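import Pool.Agent.Helper64_NNTree.Defs

/-!
# Counting orders with prescribed nested minima
-/

namespace Pool.Agent.Helper64_NNTree

open Finset

section

variable {α : Type*} [Fintype α] [DecidableEq α] {n : ℕ}

def IsPred (D : Finset α) (p : α) (τ : α ≃ Fin n) (y : α) : Prop :=
  y ∈ D ∧ τ y < τ p ∧ ∀ z ∈ D, τ z < τ p → τ z ≤ τ y

def IsSucc (D : Finset α) (p : α) (τ : α ≃ Fin n) (y : α) : Prop :=
  y ∈ D ∧ τ p < τ y ∧ ∀ z ∈ D, τ p < τ z → τ y ≤ τ z

def rk (D : Finset α) (p : α) (τ : α ≃ Fin n) : ℕ := (D.filter (fun z => τ z < τ p)).card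

theorem IsPred.unique {D : Finset α} {p : α} {τ : α ≃ Fin n} {y y' : α}
    (h : IsPred D p τ y) (h' : IsPred D p τ y') : y = y' :=
  τ.injective (le_antisymm (h'.2.2 y h.1 h.2.1) (h.2.2 y' h'.1 h'.2.1))

theorem IsSucc.unique {D : Finset α} {p : α} {τ : α ≃ Fin n} {y y' : α}
    (h : IsSucc D p τ y) (h' : IsSucc D p τ y') : y = y' :=
  τ.injective (le_antisymm (h.2.2 y' h'.1 h'.2.1) (h'.2.2 y h.1 h.2.1))

theorem exists_isPred {D : Finset α} {p : α} {τ : α ≃ Fin n} (h : rk D p τ ≠ 0) :
    ∃ y, IsPred D p τ y := by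
  have hne : (D.filter (fun z => τ z < τ p)).Nonempty := by
    rw [← Finset.card_pos]; exact Nat.pos_of_ne_zero h
  obtain ⟨y, hy, hmax⟩ := Finset.exists_max_image _ (fun z => τ z) hne
  rw [Finset.mem_filter] at hy
  exact ⟨y, hy.1, hy.2, fun z hz hzp => hmax z (Finset.mem_filter.mpr ⟨hz, hzp⟩)⟩

theorem rk_add {D : Finset α} {p : α} (hp : p ∈ D) (τ : α ≃ Fin n) :
    rk D p τ + (D.filter (fun z => τ p < τ z)).card + 1 = D.card := by
  have h1 : D = (D.filter (fun z => τ z < τ p)) ∪ (D.filter (fun z => τ p < τ z)) ∪ {p} := by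
    ext z
    simp only [Finset.mem_union, Finset.mem_filter, Finset.mem_singleton]
    constructor
    · intro hz
      rcases lt_trichotomy (τ z) (τ p) with h | h | h
      · exact Or.inl (Or.inl ⟨hz, h⟩)
      · exact Or.inr (τ.injective h)
      · exact Or.inl (Or.inr ⟨hz, h⟩)
    · rintro ((h | h) | h)
      · exact h.1
      · exact h.1
      · rw [h]; exact hp
  have h2 : Disjoint (D.filter (fun z => τ z < τ p)) (D.filter (fun z => τ p < τ z)) := by
    rw [Finset.disjoint_filter]
    intro z _ h3 h4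
    exact lt_asymm h3 h4
  have h3 : Disjoint ((D.filter (fun z => τ z < τ p)) ∪ (D.filter (fun z => τ p < τ z))) {p} := by
    rw [Finset.disjoint_singleton_right]
    simp
  conv_rhs => rw [h1]
  rw [Finset.card_union_of_disjoint h3, Finset.card_union_of_disjoint h2, Finset.card_singleton]
  rfl

theorem exists_isSucc {D : Finset α} {p : α} (hp : p ∈ D) {τ : α ≃ Fin n}
    (h : rk D p τ + 1 < D.card) : ∃ y, IsSucc D p τ y := by
  have hne : (D.filter (fun z => τ p < τ z)).Nonempty := by
    rw [← Finset.card_pos]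
    have := rk_add hp τ
    omega
  obtain ⟨y, hy, hmin⟩ := Finset.exists_min_image _ (fun z => τ z) hne
  rw [Finset.mem_filter] at hy
  exact ⟨y, hy.1, hy.2, fun z hz hzp => hmin z (Finset.mem_filter.mpr ⟨hz, hzp⟩)⟩

/-- exchange the positions of `p` and `y` -/
def sw (p y : α) (τ : α ≃ Fin n) : α ≃ Fin n := (Equiv.swap p y).trans τ

@[simp] theorem sw_left (p y : α) (τ : α ≃ Fin n) : sw p y τ p = τ y := by
  simp [sw]

@[simp] theorem sw_right (p y : α) (τ : α ≃ Fin n) : sw p y τ y = τ p := by
  simp [sw]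

theorem sw_of_ne (p y : α) (τ : α ≃ Fin n) {z : α} (h1 : z ≠ p) (h2 : z ≠ y) :
    sw p y τ z = τ z := by
  simp [sw, Equiv.swap_apply_of_ne_of_ne h1 h2]

theorem sw_sw (p y : α) (τ : α ≃ Fin n) : sw p y (sw p y τ) = τ := by
  ext z
  simp [sw]

theorem isSucc_sw {D : Finset α} {p : α} (hp : p ∈ D) {τ : α ≃ Fin n} {y : α}
    (h : IsPred D p τ y) : IsSucc D p (sw p y τ) y := by
  refine ⟨h.1, by simpa using h.2.1, ?_⟩
  intro z hz hlt
  rw [sw_left] at hlt
  rw [sw_right]
  by_cases h1 : z = p
  · subst h1; rw [sw_left] at hlt; exact absurd hlt (lt_irrefl _)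
  by_cases h2 : z = y
  · subst h2; rw [sw_right]
  rw [sw_of_ne p y τ h1 h2] at hlt ⊢
  by_contra hcon
  exact absurd (h.2.2 z hz (not_le.mp hcon)) (not_le.mpr hlt)

theorem isPred_sw {D : Finset α} {p : α} (hp : p ∈ D) {τ : α ≃ Fin n} {y : α}
    (h : IsSucc D p τ y) : IsPred D p (sw p y τ) y := by
  refine ⟨h.1, by simpa using h.2.1, ?_⟩
  intro z hz hlt
  rw [sw_left] at hlt
  rw [sw_right]
  by_cases h1 : z = p
  · subst h1; rw [sw_left] at hlt; exact absurd hlt (lt_irrefl _)
  by_cases h2 : z = y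
  · subst h2; rw [sw_right]
  rw [sw_of_ne p y τ h1 h2] at hlt ⊢
  by_contra hcon
  exact absurd (h.2.2 z hz (not_le.mp hcon)) (not_le.mpr hlt)

theorem rk_sw_pred {D : Finset α} {p : α} (hp : p ∈ D) {τ : α ≃ Fin n} {y : α}
    (h : IsPred D p τ y) : rk D p (sw p y τ) + 1 = rk D p τ := by
  have hyp : y ≠ p := fun hh => by
    have := h.2.1; rw [hh] at this; exact lt_irrefl _ this
  have h1 : D.filter (fun z => sw p y τ z < sw p y τ p) =
      (D.filter (fun z => τ z < τ p)).erase y := by
    ext z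
    simp only [Finset.mem_filter, Finset.mem_erase, sw_left]
    constructor
    · rintro ⟨hz, hlt⟩
      by_cases h1 : z = p
      · subst h1; rw [sw_left] at hlt; exact absurd hlt (lt_irrefl _)
      by_cases h2 : z = y
      · subst h2; rw [sw_right] at hlt; exact absurd hlt (not_lt.mpr h.2.1.le)
      rw [sw_of_ne p y τ h1 h2] at hlt
      exact ⟨h2, hz, lt_trans hlt h.2.1⟩
    · rintro ⟨h2, hz, hlt⟩
      have h1 : z ≠ p := fun hh => by rw [hh] at hlt; exact lt_irrefl _ hlt
      refine ⟨hz, ?_⟩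
      rw [sw_of_ne p y τ h1 h2]
      rcases lt_or_eq_of_le (h.2.2 z hz hlt) with h3 | h3
      · exact h3
      · exact absurd (τ.injective h3) h2
  unfold rk
  rw [h1]
  exact Finset.card_erase_add_one (Finset.mem_filter.mpr ⟨h.1, h.2.1⟩)

theorem rk_sw_succ {D : Finset α} {p : α} (hp : p ∈ D) {τ : α ≃ Fin n} {y : α}
    (h : IsSucc D p τ y) : rk D p (sw p y τ) = rk D p τ + 1 := by
  have h1 := rk_sw_pred hp (isPred_sw hp h)
  rw [sw_sw] at h1
  exact h1.symm

/-- The set `E` of orders is invariant under exchanging `p` with a neighbour inside `D`. -/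
def SwapInv (D : Finset α) (p : α) (E : Finset (α ≃ Fin n)) : Prop :=
  ∀ τ ∈ E, ∀ y ∈ D, y ≠ p → (∀ z ∈ D, z ≠ p → z ≠ y → (τ z < τ p ↔ τ z < τ y)) → sw p y τ ∈ E

theorem card_rk_succ {D : Finset α} {p : α} (hp : p ∈ D) (E : Finset (α ≃ Fin n))
    (hE : SwapInv D p E) (r : ℕ) (hr : r + 1 < D.card) :
    (E.filter (fun τ => rk D p τ = r + 1)).card = (E.filter (fun τ => rk D p τ = r)).card := by
  classical
  let f : (α ≃ Fin n) → (α ≃ Fin n) := fun τ =>
    if h : ∃ y, IsPred D p τ y then sw p h.choose τ else τ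
  let g : (α ≃ Fin n) → (α ≃ Fin n) := fun τ =>
    if h : ∃ y, IsSucc D p τ y then sw p h.choose τ else τ
  have hf : ∀ τ y, IsPred D p τ y → f τ = sw p y τ := by
    intro τ y h
    have hex : ∃ y, IsPred D p τ y := ⟨y, h⟩
    simp only [f, dif_pos hex]
    rw [hex.choose_spec.unique h]
  have hgg : ∀ τ y, IsSucc D p τ y → g τ = sw p y τ := by
    intro τ y h
    have hex : ∃ y, IsSucc D p τ y := ⟨y, h⟩
    simp only [g, dif_pos hex]
    rw [hex.choose_spec.unique h]
  apply Finset.card_nbij' f g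
  · intro τ hτ
    simp only [Finset.coe_filter, Set.mem_setOf_eq] at hτ ⊢
    obtain ⟨y, hy⟩ := exists_isPred (D := D) (p := p) (τ := τ) (by omega)
    rw [hf τ y hy]
    have hyp : y ≠ p := fun hh => by
      have := hy.2.1; rw [hh] at this; exact lt_irrefl _ this
    refine ⟨hE τ hτ.1 y hy.1 hyp ?_, ?_⟩
    · intro z hz hzp hzy
      constructor
      · intro h
        rcases lt_or_eq_of_le (hy.2.2 z hz h) with h3 | h3
        · exact h3
        · exact absurd (τ.injective h3) hzy
      · intro h; exact lt_trans h hy.2.1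
    · have := rk_sw_pred hp hy
      omega
  · intro τ hτ
    simp only [Finset.coe_filter, Set.mem_setOf_eq] at hτ ⊢
    obtain ⟨y, hy⟩ := exists_isSucc hp (τ := τ) (by omega)
    rw [hgg τ y hy]
    have hyp : y ≠ p := fun hh => by
      have := hy.2.1; rw [hh] at this; exact lt_irrefl _ this
    refine ⟨hE τ hτ.1 y hy.1 hyp ?_, ?_⟩
    · intro z hz hzp hzy
      constructor
      · intro h; exact lt_trans h hy.2.1
      · intro h
        by_contra hcon
        rcases lt_or_eq_of_le (not_lt.mp hcon) with h3 | h3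
        · exact absurd (hy.2.2 z hz h3) (not_le.mpr h)
        · exact hzp (τ.injective h3.symm)
    · have := rk_sw_succ hp hy
      omega
  · intro τ hτ
    simp only [Finset.coe_filter, Set.mem_setOf_eq] at hτ
    obtain ⟨y, hy⟩ := exists_isPred (D := D) (p := p) (τ := τ) (by omega)
    rw [hf τ y hy, hgg _ y (isSucc_sw hp hy), sw_sw]
  · intro τ hτ
    simp only [Finset.coe_filter, Set.mem_setOf_eq] at hτ
    obtain ⟨y, hy⟩ := exists_isSucc hp (τ := τ) (by omega)
    rw [hgg τ y hy, hf _ y (isPred_sw hp hy), sw_sw]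

theorem card_min_mul {D : Finset α} {p : α} (hp : p ∈ D) (E : Finset (α ≃ Fin n))
    (hE : SwapInv D p E) :
    (E.filter (fun τ => ∀ z ∈ D, τ p ≤ τ z)).card * D.card = E.card := by
  classical
  have h0 : ∀ r, r < D.card → (E.filter (fun τ => rk D p τ = r)).card =
      (E.filter (fun τ => rk D p τ = 0)).card := by
    intro r
    induction r with
    | zero => intro _; rfl
    | succ r ih => intro hr; rw [card_rk_succ hp E hE r hr]; exact ih (by omega)
  have h1 : E.card = ∑ r ∈ Finset.range D.card, (E.filter (fun τ => rk D p τ = r)).card := by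
    apply Finset.card_eq_sum_card_fiberwise
    intro τ _
    simp only [Finset.coe_range, Set.mem_Iio]
    have := rk_add hp τ
    omega
  have h2 : E.filter (fun τ => ∀ z ∈ D, τ p ≤ τ z) = E.filter (fun τ => rk D p τ = 0) := by
    apply Finset.filter_congr
    intro τ _
    unfold rk
    rw [Finset.card_eq_zero, Finset.filter_eq_empty_iff]
    constructor
    · intro h z hz; exact not_lt.mpr (h z hz)
    · intro h z hz; exact not_lt.mp (h hz)
  rw [h2, h1, Finset.sum_congr rfl (fun r hr => h0 r (Finset.mem_range.mp hr)), Finset.sum_const,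
    Finset.card_range, smul_eq_mul, mul_comm]

/-- Nested minima: the number of orders in which `p j` is the first element of `D j` for all
`j < m`. -/
theorem nested_count (hn : Fintype.card α = n) (D : ℕ → Finset α) (p : ℕ → α) (m : ℕ)
    (hp : ∀ j, j < m → p j ∈ D j)
    (hsub : ∀ i j, i < j → j < m → D j ⊆ (D i).erase (p i)) :
    (Finset.univ.filter (fun τ : α ≃ Fin n => ∀ j, j < m → ∀ z ∈ D j, τ (p j) ≤ τ z)).card *
      ∏ j ∈ Finset.range m, (D j).card = n.factorial := by
  classical
  have key : ∀ d s, s + d = m →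
      (Finset.univ.filter (fun τ : α ≃ Fin n =>
        ∀ j, s ≤ j → j < m → ∀ z ∈ D j, τ (p j) ≤ τ z)).card *
      ∏ j ∈ Finset.Ico s m, (D j).card = n.factorial := by
    intro d
    induction d with
    | zero =>
      intro s hs
      have hs' : s = m := by omega
      subst hs'
      rw [Finset.Ico_self, Finset.prod_empty, mul_one]
      have h1 : (Finset.univ.filter (fun τ : α ≃ Fin n =>
        ∀ j, s ≤ j → j < s → ∀ z ∈ D j, τ (p j) ≤ τ z)) = Finset.univ := by
        apply Finset.filter_true_of_mem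
        intro τ _ j h1 h2
        omega
      rw [h1, Finset.card_univ]
      subst hn
      rw [Fintype.card_equiv (Fintype.equivFin α)]
    | succ d ih =>
      intro s hs
      have hsm : s < m := by omega
      have ih' := ih (s + 1) (by omega)
      set E := (Finset.univ.filter (fun τ : α ≃ Fin n =>
        ∀ j, s + 1 ≤ j → j < m → ∀ z ∈ D j, τ (p j) ≤ τ z)) with hEdef
      have h1 : (Finset.univ.filter (fun τ : α ≃ Fin n =>
          ∀ j, s ≤ j → j < m → ∀ z ∈ D j, τ (p j) ≤ τ z)) =
          E.filter (fun τ => ∀ z ∈ D s, τ (p s) ≤ τ z) := by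
        ext τ
        simp only [hEdef, Finset.mem_filter, Finset.mem_univ, true_and]
        constructor
        · intro h
          exact ⟨fun j hj => h j (by omega), h s le_rfl hsm⟩
        · rintro ⟨h1, h2⟩ j hj hjm
          rcases Nat.eq_or_lt_of_le hj with h3 | h3
          · subst h3; exact h2
          · exact h1 j h3 hjm
      have hinv : SwapInv (D s) (p s) E := by
        intro τ hτ y hy hyp hbet
        simp only [hEdef, Finset.mem_filter, Finset.mem_univ, true_and] at hτ ⊢
        intro j hj hjm z hz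
        have hDj := hsub s j (by omega) hjm
        have hpj := hp j hjm
        have e1 := Finset.mem_erase.mp (hDj hpj)
        have e2 := Finset.mem_erase.mp (hDj hz)
        by_cases c1 : p j = y
        · by_cases c2 : z = y
          · rw [c1, c2]
          · have h3 := hτ j hj hjm z hz
            rw [c1, sw_right, sw_of_ne _ _ _ e2.1 c2]
            rw [c1] at h3
            have h4 : ¬ τ z < τ (p s) := fun h5 =>
              absurd ((hbet z e2.2 e2.1 c2).mp h5) (not_lt.mpr h3)
            exact not_lt.mp h4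
        · by_cases c2 : z = y
          · have h3 := hτ j hj hjm z hz
            rw [c2] at h3
            rw [c2, sw_right, sw_of_ne _ _ _ e1.1 c1]
            have h4 : τ (p j) < τ y := lt_of_le_of_ne h3 (fun h => c1 (τ.injective h))
            exact ((hbet (p j) e1.2 e1.1 c1).mpr h4).le
          · rw [sw_of_ne _ _ _ e1.1 c1, sw_of_ne _ _ _ e2.1 c2]
            exact hτ j hj hjm z hz
      rw [h1, Finset.prod_eq_prod_Ico_succ_bot hsm, ← mul_assoc,
        card_min_mul (hp s hsm) E hinv]
      exact ih'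
  have := key m 0 (by omega)
  rw [← Finset.range_eq_Ico] at this
  convert this using 4
  simp

end

end Pool.Agent.Helper64_NNTree
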