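import Mathlib

/-!
# Nearest neighbour trees on the torus and uncovered vertices (MP_bfac84_pr)
-/

namespace Pool.Agent.Helper64_NNTree

/-- The unit torus `ℝ^d / ℤ^d` with the metric induced by the Euclidean norm:
the distance of `x` and `y` is the square root of the sum of the squares of the
distances of their coordinates in `ℝ / ℤ`. -/
abbrev Torus (d : ℕ) : Type := PiLp 2 (fun _ : Fin d => UnitAddCircle)

/-- `IsParent y j i`: in the nearest neighbour tree of the sequence `y` the parent of the
vertex `i` is `j`. That is, `j` is the smallest of all indices `j < i` for which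
`dist (y i) (y j)` is minimal. (The first vertex `0` has no parent.) -/
def IsParent {n : ℕ} {M : Type*} [Dist M] (y : Fin n → M) (j i : Fin n) : Prop :=
  j < i ∧ (∀ l, l < i → dist (y i) (y j) ≤ dist (y i) (y l)) ∧
    ∀ l, l < j → dist (y i) (y j) < dist (y i) (y l)

/-- Adjacency in the nearest neighbour tree of `y`. -/
def TreeAdj {n : ℕ} {M : Type*} [Dist M] (y : Fin n → M) (i j : Fin n) : Prop :=
  IsParent y i j ∨ IsParent y j i

/-- A vertex `x` with parent `p` is directly covered if `p` has a neighbour `q ≠ x` such that
`dist (y x) (y p) < dist (y p) (y q)` and `dist (y x) (y q) < dist (y p) (y q)`. -/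
def DirectlyCovered {n : ℕ} {M : Type*} [Dist M] (y : Fin n → M) (x : Fin n) : Prop :=
  ∃ p q, IsParent y p x ∧ TreeAdj y p q ∧ q ≠ x ∧
    dist (y x) (y p) < dist (y p) (y q) ∧ dist (y x) (y q) < dist (y p) (y q)

/-- A vertex is covered if it is directly covered or a descendant of a directly covered
vertex. -/
def Covered {n : ℕ} {M : Type*} [Dist M] (y : Fin n → M) (x : Fin n) : Prop :=
  ∃ c, DirectlyCovered y c ∧ Relation.ReflTransGen (IsParent y) c x

/-- The set of uncovered vertices of the nearest neighbour tree of `y`. -/
def uncovered {n : ℕ} {M : Type*} [Dist M] (y : Fin n → M) : Set (Fin n) :=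
  {x | ¬ Covered y x}

/-- The expected number of uncovered vertices of the nearest neighbour tree of
`S (σ 0), S (σ 1), …, S (σ (n-1))` for a uniformly random permutation `σ`. -/
noncomputable def expectedUncovered {n d : ℕ} (S : Fin n → Torus d) : ℝ :=
  (∑ σ : Equiv.Perm (Fin n), ((uncovered (fun i => S (σ i))).ncard : ℝ)) / (n.factorial : ℝ)

end Pool.Agent.Helper64_NNTree
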