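import Pool.Agent.Helper64_NNTree.Defs

/-!
# Deterministic part: a chain of nested minima is an uncovered path
-/

namespace Pool.Agent.Helper64_NNTree

/-- addresses -/
abbrev Addr (k L : ℕ) : Type := Fin L → Fin k

/-- `x` and `y` agree in the coordinates below `i`. -/
def Agree {k L : ℕ} (x y : Addr k L) (i : ℕ) : Prop := ∀ l : Fin L, l.val < i → x l = y l

theorem Agree.symm {k L : ℕ} {x y : Addr k L} {i : ℕ} (h : Agree x y i) : Agree y x i :=
  fun l hl => (h l hl).symm

theorem Agree.trans {k L : ℕ} {x y z : Addr k L} {i : ℕ} (h : Agree x y i) (h' : Agree y z i) :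
    Agree x z i := fun l hl => (h l hl).trans (h' l hl)

theorem Agree.mono {k L : ℕ} {x y : Addr k L} {i j : ℕ} (h : Agree x y i) (hij : j ≤ i) :
    Agree x y j := fun l hl => h l (lt_of_lt_of_le hl hij)

theorem Agree.refl {k L : ℕ} (x : Addr k L) (i : ℕ) : Agree x x i := fun _ _ => rfl

theorem Agree.succ {k L : ℕ} {x y : Addr k L} {i : ℕ} (h : Agree x y i) (hi : i < L)
    (hx : x ⟨i, hi⟩ = y ⟨i, hi⟩) : Agree x y (i + 1) := by
  intro l hl
  rcases Nat.lt_succ_iff_lt_or_eq.mp hl with h1 | h1
  · exact h l h1
  · have : l = ⟨i, hi⟩ := Fin.ext h1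
    rw [this]; exact hx

theorem exists_first_diff {k L : ℕ} {x y : Addr k L} {j : ℕ} (h : ¬ Agree x y j) :
    ∃ i : Fin L, i.val < j ∧ Agree x y i.val ∧ x i ≠ y i := by
  classical
  have hex : ∃ m : ℕ, ∃ hm : m < L, m < j ∧ x ⟨m, hm⟩ ≠ y ⟨m, hm⟩ := by
    unfold Agree at h
    push_neg at h
    obtain ⟨l, hl, hne⟩ := h
    exact ⟨l.val, l.isLt, hl, hne⟩
  obtain ⟨hm, hmj, hne⟩ := Nat.find_spec hex
  refine ⟨⟨Nat.find hex, hm⟩, hmj, ?_, hne⟩
  intro l hl
  by_contra hcon
  exact Nat.find_min hex hl ⟨l.isLt, lt_trans hl hmj, hcon⟩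

/-- The comparison properties of the point configuration used in the argument. -/
structure Good {k L : ℕ} {M : Type*} [PseudoMetricSpace M] (pts : Addr k L → M) : Prop where
  scale : ∀ (x y z w : Addr k L) (i : Fin L), Agree x y (i.val + 1) → Agree z w i.val →
    z i ≠ w i → dist (pts x) (pts y) < dist (pts z) (pts w)
  mono : ∀ (x y z w : Addr k L) (i : Fin L), Agree x y i.val → Agree z w i.val →
    x i ≠ y i → z i ≠ w i → x i < z i → y i = w i → dist (pts x) (pts y) < dist (pts z) (pts w)
  parent : ∀ (x p q : Addr k L) (j' j : Fin L), j'.val + 1 = j.val → Agree x p j.val →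
    Agree x q j'.val → x j' ≠ q j' → p j < x j → q j ≠ x j →
    dist (pts p) (pts q) < dist (pts x) (pts q)

section Det

variable {k L n : ℕ} {M : Type*} [PseudoMetricSpace M]

/-- The chain data for the vertex `x`. -/
structure Chain (x : Addr k L) (p : ℕ → Addr k L) : Prop where
  last : p L = x
  agree : ∀ j, j < L → Agree (p j) x j
  lt : ∀ j (hj : j < L), p j ⟨j, hj⟩ < x ⟨j, hj⟩
  ne : ∀ j (hj : j + 1 < L), p j ⟨j + 1, hj⟩ ≠ x ⟨j + 1, hj⟩

/-- membership in the set `D_{j+1}` -/
def InD (x : Addr k L) (j : ℕ) (hj : j < L) (pj z : Addr k L) : Prop :=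
  Agree z x j ∧ z ≠ pj ∧ (z ⟨j, hj⟩ ≤ pj ⟨j, hj⟩ ∨ z ⟨j, hj⟩ = x ⟨j, hj⟩)

theorem Chain.agree' {x : Addr k L} {p : ℕ → Addr k L} (h : Chain x p) {j : ℕ} (hj : j ≤ L) :
    Agree (p j) x j := by
  rcases Nat.lt_or_ge j L with h1 | h1
  · exact h.agree j h1
  · have : j = L := le_antisymm hj h1
    subst this
    rw [h.last]; exact Agree.refl _ _

theorem mem_uncovered_of_chain {pts : Addr k L → M} (hg : Good pts) (τ : Addr k L ≃ Fin n)
    {x : Addr k L} {p : ℕ → Addr k L} (hc : Chain x p)
    (hmin0 : ∀ z, τ (p 0) ≤ τ z)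
    (hmin : ∀ j (hj : j < L), ∀ z, InD x j hj (p j) z → τ (p (j + 1)) ≤ τ z) :
    τ x ∈ uncovered (fun i => pts (τ.symm i)) := by
  classical
  set y : Fin n → M := fun i => pts (τ.symm i) with hy
  have yτ : ∀ z, y (τ z) = pts z := fun z => by simp [hy]
  -- times are increasing along the chain
  have hpne : ∀ j (hj : j < L), p (j + 1) ≠ p j := by
    intro j hj hcon
    have h1 := hc.lt j hj
    have h2 : p (j + 1) ⟨j, hj⟩ = x ⟨j, hj⟩ := hc.agree' (Nat.succ_le_of_lt hj) ⟨j, hj⟩ (Nat.lt_succ_self j)
    rw [hcon] at h2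
    exact absurd h2 (ne_of_lt h1)
  -- `p j` is first in `K_j`
  have hKmin : ∀ j, j ≤ L → ∀ z, Agree z x j → τ (p j) ≤ τ z := by
    intro j hj z hz
    cases j with
    | zero => exact hmin0 z
    | succ j =>
      have hjL : j < L := hj
      apply hmin j hjL z
      refine ⟨hz.mono (Nat.le_succ j), ?_, Or.inr (hz ⟨j, hjL⟩ (Nat.lt_succ_self j))⟩
      intro hcon
      have h1 := hc.lt j hjL
      rw [← hcon, hz ⟨j, hjL⟩ (Nat.lt_succ_self j)] at h1
      exact lt_irrefl _ h1
  have hstep : ∀ j (hj : j < L), τ (p j) < τ (p (j + 1)) := by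
    intro j hj
    have h1 : τ (p j) ≤ τ (p (j + 1)) :=
      hKmin j hj.le _ ((hc.agree' (Nat.succ_le_of_lt hj)).mono (Nat.le_succ j))
    rcases lt_or_eq_of_le h1 with h2 | h2
    · exact h2
    · exact absurd (τ.injective h2).symm (hpne j hj)
  have hmonoτ : ∀ i j, i ≤ j → j ≤ L → τ (p i) ≤ τ (p j) := by
    intro i j hij hj
    induction j, hij using Nat.le_induction with
    | base => exact le_rfl
    | succ j hij ih => exact le_trans (ih (by omega)) (hstep j (by omega)).le
  -- value of the coordinate `j` of `p (j+1)`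
  have hpj1 : ∀ j (hj : j < L), p (j + 1) ⟨j, hj⟩ = x ⟨j, hj⟩ := fun j hj =>
    hc.agree' (Nat.succ_le_of_lt hj) ⟨j, hj⟩ (Nat.lt_succ_self j)
  -- Step (b): the strict nearest neighbour property
  have hnear : ∀ j (hj : j < L), ∀ z, τ z < τ (p (j + 1)) → z ≠ p j →
      dist (pts (p (j + 1))) (pts (p j)) < dist (pts (p (j + 1))) (pts z) := by
    intro j hj z hz hzne
    have hnD : ¬ InD x j hj (p j) z := fun h => absurd (hmin j hj z h) (not_le.mpr hz)
    have hA1 : Agree (p (j + 1)) x (j + 1) := hc.agree' (Nat.succ_le_of_lt hj)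
    have hA : Agree (p j) x j := hc.agree j hj
    by_cases hK : Agree z x j
    · -- same cluster
      have h1 : p j ⟨j, hj⟩ < z ⟨j, hj⟩ ∧ z ⟨j, hj⟩ ≠ x ⟨j, hj⟩ := by
        unfold InD at hnD
        push_neg at hnD
        exact hnD hK hzne
      rw [dist_comm (pts (p (j + 1))), dist_comm (pts (p (j + 1)))]
      apply hg.mono (p j) (p (j + 1)) z (p (j + 1)) ⟨j, hj⟩
      · exact hA.trans (hA1.mono (Nat.le_succ j)).symm
      · exact hK.trans (hA1.mono (Nat.le_succ j)).symm
      · rw [hpj1 j hj]; exact ne_of_lt (hc.lt j hj)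
      · rw [hpj1 j hj]; exact h1.2
      · exact h1.1
      · rfl
    · obtain ⟨i, hij, hagr, hne⟩ := exists_first_diff hK
      apply hg.scale (p (j + 1)) (p j) (p (j + 1)) z i
      · exact (hA1.mono (by omega)).trans (hA.mono (by omega)).symm
      · exact (hA1.mono (by omega)).trans hagr.symm
      · rw [hA1 i (by omega)]
        exact fun h => hne h.symm
  -- parents along the chain
  have hpar : ∀ j (hj : j < L), IsParent y (τ (p j)) (τ (p (j + 1))) := by
    intro j hj
    refine ⟨hstep j hj, ?_, ?_⟩
    · intro l hl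
      rw [yτ, yτ]
      by_cases hlp : τ.symm l = p j
      · have : l = τ (p j) := by rw [← hlp]; simp
        rw [this, yτ]
      · have h1 := hnear j hj (τ.symm l) (by simpa using hl) hlp
        exact h1.le
    · intro l hl
      rw [yτ, yτ]
      have hlp : τ.symm l ≠ p j := by
        intro hcon
        have : l = τ (p j) := by rw [← hcon]; simp
        rw [this] at hl
        exact lt_irrefl _ hl
      exact hnear j hj (τ.symm l) (by simpa using lt_trans hl (hstep j hj)) hlp
  -- uniqueness of parents
  have huniq : ∀ a b c : Fin n, IsParent y a c → IsParent y b c → a = b := by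
    intro a b c ha hb
    rcases lt_trichotomy a b with h | h | h
    · exact absurd (ha.2.1 b hb.1) (not_le.mpr (hb.2.2 a h))
    · exact h
    · exact absurd (hb.2.1 a ha.1) (not_le.mpr (ha.2.2 b h))
  have hnoroot : ∀ a : Fin n, ¬ IsParent y a (τ (p 0)) := by
    intro a ha
    have := hmin0 (τ.symm a)
    rw [Equiv.apply_symm_apply] at this
    exact absurd ha.1 (not_lt.mpr this)
  -- no chain vertex is directly covered
  have hdir : ∀ j, j ≤ L → ¬ DirectlyCovered y (τ (p j)) := by
    intro j hjL hcov
    obtain ⟨P, Q, hP, hadj, hQne, h1, h2⟩ := hcov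
    cases j with
    | zero => exact hnoroot P hP
    | succ j =>
      have hj : j < L := hjL
      have hPe : P = τ (p j) := huniq _ _ _ hP (hpar j hj)
      subst hPe
      obtain ⟨q, rfl⟩ : ∃ q, Q = τ q := ⟨τ.symm Q, by simp⟩
      rw [yτ, yτ, yτ] at h1
      rw [yτ, yτ, yτ] at h2
      have hqne : q ≠ p (j + 1) := fun h => hQne (by rw [h])
      have hA1 : Agree (p (j + 1)) x (j + 1) := hc.agree' (Nat.succ_le_of_lt hj)
      have hA : Agree (p j) x j := hc.agree j hj
      rcases hadj with hadj | hadj
      · -- `q` is a child of `p j`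
        have hqp : q ≠ p j := fun h => by
          rw [h] at hadj; exact lt_irrefl _ hadj.1
        rcases lt_trichotomy (τ q) (τ (p (j + 1))) with hlt | heq | hgt
        · have hnD : ¬ InD x j hj (p j) q := fun h => absurd (hmin j hj q h) (not_le.mpr hlt)
          by_cases hK : Agree q x j
          · have h3 : p j ⟨j, hj⟩ < q ⟨j, hj⟩ ∧ q ⟨j, hj⟩ ≠ x ⟨j, hj⟩ := by
              unfold InD at hnD
              push_neg at hnD
              exact hnD hK hqp
            have h4 : dist (pts (p j)) (pts q) < dist (pts (p (j + 1))) (pts q) := by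
              apply hg.mono (p j) q (p (j + 1)) q ⟨j, hj⟩
              · exact hA.trans hK.symm
              · exact (hA1.mono (Nat.le_succ j)).trans hK.symm
              · exact ne_of_lt h3.1
              · rw [hpj1 j hj]; exact h3.2.symm
              · rw [hpj1 j hj]; exact hc.lt j hj
              · rfl
            exact absurd h2 (not_lt.mpr h4.le)
          · obtain ⟨i, hij, hagr, hne⟩ := exists_first_diff hK
            -- `q` prefers `p i`
            have hiL : i.val < L := i.isLt
            have hτi : τ (p i.val) < τ q := by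
              have h5 : τ (p i.val) ≤ τ (p j) := hmonoτ _ _ hij.le hj.le
              exact lt_of_le_of_lt h5 hadj.1
            have hqi : q ≠ p i.val := fun h => by
              rw [h] at hτi; exact lt_irrefl _ hτi
            have h6 := hadj.2.1 (τ (p i.val)) hτi
            rw [yτ, yτ, yτ] at h6
            have hAi : Agree (p i.val) x i.val := hc.agree i.val hiL
            have hpji : p j i = x i := hA i hij
            have h7 : dist (pts q) (pts (p i.val)) < dist (pts q) (pts (p j)) := by
              by_cases hb : q i = p i.val i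
              · apply hg.scale q (p i.val) q (p j) i
                · exact Agree.succ (hagr.trans hAi.symm) hiL hb
                · exact hagr.trans (hA.mono hij.le).symm
                · rw [hpji]; exact hne
              · rw [dist_comm (pts q), dist_comm (pts q)]
                apply hg.mono (p i.val) q (p j) q i
                · exact hAi.trans hagr.symm
                · exact (hA.mono hij.le).trans hagr.symm
                · exact fun h => hb h.symm
                · rw [hpji]; exact fun h => hne h.symm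
                · rw [hpji]; exact hc.lt i.val hiL
                · rfl
            exact absurd h6 (not_le.mpr h7)
        · exact hqne (τ.injective heq)
        · have h5 := hadj.2.1 (τ (p (j + 1))) hgt
          rw [yτ, yτ, yτ] at h5
          rw [dist_comm (pts (p (j + 1))), dist_comm (pts (p j))] at h2
          exact absurd h2 (not_lt.mpr h5)
      · -- `q` is the parent of `p j`
        cases j with
        | zero => exact hnoroot _ hadj
        | succ j' =>
          have hj' : j' < L := by omega
          have hqe : q = p j' := τ.injective (huniq _ _ _ hadj (hpar j' hj'))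
          subst hqe
          have hAj' : Agree (p j') x j' := hc.agree j' hj'
          have h8 : dist (pts (p (j' + 1))) (pts (p j')) <
              dist (pts (p (j' + 1 + 1))) (pts (p j')) := by
            apply hg.parent (p (j' + 1 + 1)) (p (j' + 1)) (p j') ⟨j', hj'⟩ ⟨j' + 1, hj⟩ rfl
            · exact (hA1.mono (Nat.le_succ _)).trans hA.symm
            · exact (hA1.mono (by simp only; omega)).trans hAj'.symm
            · rw [hA1 ⟨j', hj'⟩ (by simp only; omega)]
              exact (ne_of_lt (hc.lt j' hj')).symm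
            · rw [hpj1 (j' + 1) hj]; exact hc.lt (j' + 1) hj
            · rw [hpj1 (j' + 1) hj]; exact hc.ne j' hj
          exact absurd h2 (not_lt.mpr h8.le)
  -- ancestors of chain vertices are chain vertices
  have hanc : ∀ c b : Fin n, Relation.ReflTransGen (IsParent y) c b →
      ∀ j, j ≤ L → b = τ (p j) → ∃ i, i ≤ L ∧ c = τ (p i) := by
    intro c b h
    induction h with
    | refl => intro j hj hb; exact ⟨j, hj, hb⟩
    | tail hab hbc ih =>
      intro j hj hb
      subst hb
      cases j with
      | zero => exact absurd hbc (hnoroot _)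
      | succ j =>
        have := huniq _ _ _ hbc (hpar j hj)
        exact ih j (by omega) this
  intro hcov
  obtain ⟨c, hc1, hc2⟩ := hcov
  obtain ⟨i, hi, rfl⟩ := hanc c (τ x) hc2 L le_rfl (by rw [hc.last])
  exact hdir i hi hc1

end Det

end Pool.Agent.Helper64_NNTree
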