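import Pool.Agent.Helper64_NNTree.Main

/-!
# Polynomially many uncovered vertices
-/

namespace Pool.Agent.Helper64_NNTree

open Finset Filter Topology

variable {k L n : ℕ}

/-- A good configuration is injective. -/
theorem Good.injective {M : Type*} [PseudoMetricSpace M] {pts : Addr k L → M} (hg : Good pts) :
    Function.Injective pts := by
  intro z w hzw
  by_contra hne
  have h1 : ¬ Agree z w L := by
    intro h
    exact hne (funext fun l => h l l.isLt)
  obtain ⟨i, _, ha, hd⟩ := exists_first_diff h1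
  have h2 := hg.scale z z z w i (Agree.refl _ _) ha hd
  rw [hzw, dist_self] at h2
  exact lt_irrefl _ h2

theorem sum_perm_eq {M : Type*} [PseudoMetricSpace M] (e : Addr k L ≃ Fin n)
    (pts : Addr k L → M) :
    ∑ σ : Equiv.Perm (Fin n), ((uncovered (fun i => pts (e.symm (σ i)))).ncard : ℝ) =
      ∑ τ : Addr k L ≃ Fin n, ((uncovered (fun i => pts (τ.symm i))).ncard : ℝ) := by
  classical
  let E : Equiv.Perm (Fin n) ≃ (Addr k L ≃ Fin n) :=
    { toFun := fun σ => (σ.trans e.symm).symm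
      invFun := fun τ => τ.symm.trans e
      left_inv := fun σ => by ext i; simp
      right_inv := fun τ => by ext i; simp }
  rw [← Equiv.sum_comp E]
  rfl

/-- Zero extension. -/
noncomputable def emb {a b : ℕ} (_h : a ≤ b) (x : Torus a) : Torus b :=
  WithLp.toLp 2 (fun i : Fin b => if hi : i.val < a then x ⟨i.val, hi⟩ else 0)

theorem dist_emb {a b : ℕ} (h : a ≤ b) (x y : Torus a) :
    dist (emb h x) (emb h y) = dist x y := by
  obtain ⟨c, rfl⟩ := Nat.exists_eq_add_of_le h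
  rw [PiLp.dist_eq_of_L2, PiLp.dist_eq_of_L2]
  congr 1
  rw [Fin.sum_univ_add]
  have h1 : ∀ i : Fin a, dist (emb h x (Fin.castAdd c i)) (emb h y (Fin.castAdd c i)) =
      dist (x i) (y i) := by
    intro i
    simp [emb]
  have h2 : ∀ i : Fin c, dist (emb h x (Fin.natAdd a i)) (emb h y (Fin.natAdd a i)) = 0 := by
    intro i
    simp [emb]
  simp only [h1, h2]
  simp

theorem uncovered_congr {M N : Type*} [Dist M] [Dist N] (y : Fin n → M) (y' : Fin n → N)
    (h : ∀ i j, dist (y' i) (y' j) = dist (y i) (y j)) : uncovered y' = uncovered y := by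
  have h1 : IsParent y' = IsParent y := by
    funext j i
    unfold IsParent
    simp only [h]
  unfold uncovered Covered DirectlyCovered TreeAdj
  simp only [h, h1]

theorem expectedUncovered_emb {a b : ℕ} (h : a ≤ b) (S : Fin n → Torus a) :
    expectedUncovered (fun i => emb h (S i)) = expectedUncovered S := by
  unfold expectedUncovered
  congr 1
  apply Finset.sum_congr rfl
  intro σ _
  rw [uncovered_congr (fun i => S (σ i)) (fun i => emb h (S (σ i))) (fun i j => dist_emb h _ _)]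

theorem sum_gg_ten : (1.0996 : ℝ) * 10 ≤ ∑ a : Fin 10, gg 10 a := by
  have h : ∀ a : Fin 10, gg 10 a = ∑ c : Fin 10, if c < a then (9 / 10 : ℝ) / ((c.val : ℝ) + 2)
      else 0 := by
    intro a
    unfold gg
    rw [← Finset.sum_filter]
    apply Finset.sum_congr
    · ext c; simp
    · intro c _
      norm_num
  simp only [h]
  simp only [Fin.sum_univ_succ, Fin.sum_univ_zero, Fin.lt_def, Fin.val_succ, Fin.val_zero]
  norm_num

theorem exists_config (d : ℕ) (hd : 20 ≤ d) (L : ℕ) :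
    ∃ S : Fin (10 ^ L) → Torus d, Function.Injective S ∧
      (1.0996 : ℝ) ^ L ≤ expectedUncovered S := by
  classical
  have hev := eventually_good (k := 10) (L := L)
  obtain ⟨ε, hε⟩ := hev.exists
  have hcard : Fintype.card (Addr 10 L) = 10 ^ L := by
    simp [Addr]
  let e : Addr 10 L ≃ Fin (10 ^ L) := Fintype.equivFinOfCardEq hcard
  let S0 : Fin (10 ^ L) → Torus (2 * 10) := fun i => pt ε (e.symm i)
  have hd' : 2 * 10 ≤ d := by omega
  refine ⟨fun i => emb hd' (S0 i), ?_, ?_⟩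
  · intro i j hij
    have h1 : dist (emb hd' (S0 i)) (emb hd' (S0 j)) = 0 := by
      have : emb hd' (S0 i) = emb hd' (S0 j) := hij
      rw [this, dist_self]
    rw [dist_emb, dist_eq_zero] at h1
    exact e.symm.injective (hε.injective h1)
  · rw [expectedUncovered_emb hd' S0]
    unfold expectedUncovered
    have h1 := sum_uncovered_ge (k := 10) (L := L) (by norm_num) hcard hε
    have h2 := sum_perm_eq e (pt (k := 10) (L := L) ε)
    have h3 : (0 : ℝ) < ((10 ^ L).factorial : ℝ) := by exact_mod_cast Nat.factorial_pos _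
    rw [le_div_iff₀ h3]
    show (1.0996 : ℝ) ^ L * ((10 ^ L).factorial : ℝ) ≤
      ∑ σ : Equiv.Perm (Fin (10 ^ L)), ((uncovered (fun i => pt ε (e.symm (σ i)))).ncard : ℝ)
    rw [h2]
    refine le_trans ?_ h1
    have h4 : (1.0996 : ℝ) ^ L * 10 ^ L ≤ (∑ a : Fin 10, gg 10 a) ^ L := by
      rw [← mul_pow]
      exact pow_le_pow_left₀ (by norm_num) sum_gg_ten L
    have h5 : (0 : ℝ) < ((10 ^ L : ℕ) : ℝ) := by positivity
    rw [div_mul_eq_mul_div, le_div_iff₀ h5]
    calc (1.0996 : ℝ) ^ L * ((10 ^ L).factorial : ℝ) * ((10 ^ L : ℕ) : ℝ)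
        = ((10 ^ L).factorial : ℝ) * ((1.0996 : ℝ) ^ L * 10 ^ L) := by push_cast; ring
      _ ≤ ((10 ^ L).factorial : ℝ) * (∑ a : Fin 10, gg 10 a) ^ L :=
        mul_le_mul_of_nonneg_left h4 h3.le

theorem ten_rpow_le : (10 : ℝ) ^ (1 / 25 : ℝ) ≤ 1.0996 := by
  have h1 : (10 : ℝ) ≤ (1.0996 : ℝ) ^ (25 : ℕ) := by norm_num
  calc (10 : ℝ) ^ (1 / 25 : ℝ) ≤ ((1.0996 : ℝ) ^ (25 : ℕ)) ^ (1 / 25 : ℝ) :=
        Real.rpow_le_rpow (by norm_num) h1 (by norm_num)
    _ = 1.0996 := by
        rw [← Real.rpow_natCast, ← Real.rpow_mul (by norm_num)]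
        norm_num

theorem exists_config' (d : ℕ) (hd : 20 ≤ d) (L : ℕ) :
    ∃ S : Fin (10 ^ L) → Torus d, Function.Injective S ∧
      (((10 ^ L : ℕ) : ℝ)) ^ (1 / 25 : ℝ) ≤ expectedUncovered S := by
  obtain ⟨S, hS, h⟩ := exists_config d hd L
  refine ⟨S, hS, le_trans ?_ h⟩
  push_cast
  rw [← Real.rpow_natCast 10 L, ← Real.rpow_mul (by norm_num), mul_comm, Real.rpow_mul (by norm_num),
    Real.rpow_natCast]
  exact pow_le_pow_left₀ (by positivity) ten_rpow_le L

theorem eventually_lt_pow (C κ : ℝ) : ∀ᶠ L : ℕ in atTop,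
    C * (Real.log ((10 ^ L : ℕ) : ℝ)) ^ κ < (((10 ^ L : ℕ) : ℝ)) ^ (1 / 25 : ℝ) := by
  have h1 : (fun x : ℝ => Real.log x ^ κ) =o[atTop] fun x => x ^ (1 / 25 : ℝ) :=
    isLittleO_log_rpow_rpow_atTop κ (by norm_num)
  have h2 := h1.bound (show (0 : ℝ) < 1 / (2 * (|C| + 1)) by positivity)
  have h3 : Tendsto (fun L : ℕ => ((10 ^ L : ℕ) : ℝ)) atTop atTop := by
    push_cast
    exact tendsto_pow_atTop_atTop_of_one_lt (by norm_num)
  filter_upwards [h3.eventually h2] with L hL
  set N : ℝ := ((10 ^ L : ℕ) : ℝ) with hN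
  have hNpos : 0 < N := by rw [hN]; positivity
  have hp : 0 < N ^ (1 / 25 : ℝ) := Real.rpow_pos_of_pos hNpos _
  rw [Real.norm_eq_abs, Real.norm_eq_abs, abs_of_pos hp] at hL
  have hC : 0 ≤ |C| := abs_nonneg C
  calc C * (Real.log N) ^ κ ≤ |C * (Real.log N) ^ κ| := le_abs_self _
    _ = |C| * |(Real.log N) ^ κ| := abs_mul _ _
    _ ≤ |C| * (1 / (2 * (|C| + 1)) * N ^ (1 / 25 : ℝ)) := mul_le_mul_of_nonneg_left hL hC
    _ = (|C| / (2 * (|C| + 1))) * N ^ (1 / 25 : ℝ) := by ring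
    _ < 1 * N ^ (1 / 25 : ℝ) := by
        apply mul_lt_mul_of_pos_right _ hp
        rw [div_lt_one (by positivity)]
        linarith
    _ = N ^ (1 / 25 : ℝ) := one_mul _

end Pool.Agent.Helper64_NNTree
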