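import Pool.Agent.Helper64_NNTree.Det

/-!
# The point configuration on the torus
-/

namespace Pool.Agent.Helper64_NNTree

open Filter Topology

variable {k L : ℕ}

/-- indicator -/
noncomputable def ind (a b : Fin k) : ℝ := if a = b then 1 else 0

/-- length of the arm `b` -/
noncomputable def arm (k L : ℕ) (b : Fin k) : ℝ := ((b.val : ℝ) + 1) / (4 * ((k : ℝ) + 1) * ((L : ℝ) + 1))

theorem arm_pos (b : Fin k) : 0 < arm k L b := by
  unfold arm; positivity

theorem arm_lt {a b : Fin k} (h : a < b) : arm k L a < arm k L b := by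
  unfold arm
  have h1 : (a.val : ℝ) < (b.val : ℝ) := by exact_mod_cast h
  have h2 : (0 : ℝ) < 4 * ((k : ℝ) + 1) * ((L : ℝ) + 1) := by positivity
  exact div_lt_div_of_pos_right (by linarith) h2

theorem arm_le (b : Fin k) : arm k L b ≤ 1 / (4 * ((L : ℝ) + 1)) := by
  unfold arm
  have h1 : ((b.val : ℝ) + 1) ≤ (k : ℝ) + 1 := by
    have : (b.val : ℝ) ≤ k := by exact_mod_cast b.isLt.le
    linarith
  rw [div_le_div_iff₀ (by positivity) (by positivity)]
  have h3 : (0 : ℝ) ≤ 4 * ((L : ℝ) + 1) := by positivity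
  nlinarith

/-- coordinate `(φ, b)` of the point with address `x` -/
noncomputable def X (ε : ℝ) (x : Addr k L) (φ : Fin 2) (b : Fin k) : ℝ :=
  ∑ j : Fin L, if j.val % 2 = φ.val then ε ^ (j.val ^ 2) * (arm k L b * ind (x j) b) else 0

noncomputable def Dif (i : ℕ) (x y : Addr k L) (φ : Fin 2) (b : Fin k) (ε : ℝ) : ℝ :=
  ∑ j : Fin L, if i ≤ j.val ∧ j.val % 2 = φ.val then
    ε ^ (j.val ^ 2 - i ^ 2) * (arm k L b * (ind (x j) b - ind (y j) b)) else 0

theorem shift (ε : ℝ) (i : ℕ) (x y : Addr k L) (φ : Fin 2) (b : Fin k)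
    (h : ∀ j : Fin L, j.val < i → j.val % 2 = φ.val → x j = y j) :
    X ε x φ b - X ε y φ b = ε ^ (i ^ 2) * Dif i x y φ b ε := by
  unfold X Dif
  rw [← Finset.sum_sub_distrib, Finset.mul_sum]
  apply Finset.sum_congr rfl
  intro j _
  by_cases h1 : j.val % 2 = φ.val
  · by_cases h2 : i ≤ j.val
    · rw [if_pos h1, if_pos h1, if_pos ⟨h2, h1⟩]
      have h3 : ε ^ (j.val ^ 2) = ε ^ (i ^ 2) * ε ^ (j.val ^ 2 - i ^ 2) := by
        rw [← pow_add]
        congr 1
        have : i ^ 2 ≤ j.val ^ 2 := Nat.pow_le_pow_left h2 2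
        omega
      rw [h3]; ring
    · rw [if_pos h1, if_pos h1, if_neg (fun h => h2 h.1), h j (not_le.mp h2) h1]
      ring
  · rw [if_neg h1, if_neg h1, if_neg (fun h => h1 h.2)]
    ring

theorem continuous_Dif (i : ℕ) (x y : Addr k L) (φ : Fin 2) (b : Fin k) :
    Continuous (Dif i x y φ b) := by
  unfold Dif
  apply continuous_finsetSum
  intro j _
  split_ifs
  · fun_prop
  · exact continuous_const

theorem Dif_zero (i : Fin L) (x y : Addr k L) (φ : Fin 2) (b : Fin k) :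
    Dif i.val x y φ b 0 = if i.val % 2 = φ.val then arm k L b * (ind (x i) b - ind (y i) b) else 0 := by
  unfold Dif
  rw [Finset.sum_eq_single i]
  · by_cases h : i.val % 2 = φ.val
    · simp [h]
    · simp [h]
  · intro j _ hj
    by_cases h1 : i.val ≤ j.val ∧ j.val % 2 = φ.val
    · rw [if_pos h1]
      have h2 : i.val < j.val := lt_of_le_of_ne h1.1 (fun h => hj (Fin.ext h.symm))
      have h3 : i.val ^ 2 < j.val ^ 2 := Nat.pow_lt_pow_left h2 (by norm_num)
      rw [zero_pow (by omega)]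
      ring
    · rw [if_neg h1]
  · intro h; exact absurd (Finset.mem_univ i) h

/-- squared distance -/
noncomputable def Q (ε : ℝ) (x y : Addr k L) : ℝ :=
  ∑ φ : Fin 2, ∑ b : Fin k, (X ε x φ b - X ε y φ b) ^ 2

noncomputable def F (i : ℕ) (x y : Addr k L) (ε : ℝ) : ℝ :=
  ∑ φ : Fin 2, ∑ b : Fin k, (Dif i x y φ b ε) ^ 2

theorem continuous_F (i : ℕ) (x y : Addr k L) : Continuous (F i x y) := by
  unfold F
  apply continuous_finsetSum
  intro φ _
  apply continuous_finsetSum
  intro b _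
  exact (continuous_Dif i x y φ b).pow 2

theorem Q_eq (ε : ℝ) (i : ℕ) (x y : Addr k L) (h : Agree x y i) :
    Q ε x y = ε ^ (2 * i ^ 2) * F i x y ε := by
  unfold Q F
  rw [Finset.mul_sum]
  apply Finset.sum_congr rfl
  intro φ _
  rw [Finset.mul_sum]
  apply Finset.sum_congr rfl
  intro b _
  rw [shift ε i x y φ b (fun j hj _ => h j hj), mul_pow, ← pow_mul, mul_comm (i ^ 2) 2]

theorem exists_phase (i : ℕ) : ∃ φ : Fin 2, i % 2 = φ.val :=
  ⟨⟨i % 2, Nat.mod_lt _ (by norm_num)⟩, rfl⟩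

theorem sum_phase (i : ℕ) (g : ℝ) : (∑ φ : Fin 2, if i % 2 = φ.val then g else 0) = g := by
  rcases Nat.mod_two_eq_zero_or_one i with h | h <;> simp [h, Fin.sum_univ_two]

theorem sum_ind_sq (a c : Fin k) (hac : a ≠ c) :
    (∑ b : Fin k, (arm k L b * (ind a b - ind c b)) ^ 2) = arm k L a ^ 2 + arm k L c ^ 2 := by
  have h1 : ∀ b : Fin k, (arm k L b * (ind a b - ind c b)) ^ 2 =
      (if a = b then arm k L b ^ 2 else 0) + (if c = b then arm k L b ^ 2 else 0) := by
    intro b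
    unfold ind
    by_cases h1 : a = b
    · by_cases h2 : c = b
      · exact absurd (h1.trans h2.symm) hac
      · rw [if_pos h1, if_neg h2, if_pos h1, if_neg h2]; ring
    · by_cases h2 : c = b
      · rw [if_neg h1, if_pos h2, if_neg h1, if_pos h2]; ring
      · rw [if_neg h1, if_neg h2, if_neg h1, if_neg h2]; ring
  rw [Finset.sum_congr rfl (fun b _ => h1 b), Finset.sum_add_distrib]
  simp

theorem F_zero_of_eq (i : Fin L) (x y : Addr k L) (h : x i = y i) : F i.val x y 0 = 0 := by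
  unfold F
  apply Finset.sum_eq_zero
  intro φ _
  apply Finset.sum_eq_zero
  intro b _
  rw [Dif_zero, h]
  simp

theorem F_zero_of_ne (i : Fin L) (x y : Addr k L) (h : x i ≠ y i) :
    F i.val x y 0 = arm k L (x i) ^ 2 + arm k L (y i) ^ 2 := by
  unfold F
  have h1 : ∀ φ : Fin 2, (∑ b : Fin k, (Dif i.val x y φ b 0) ^ 2) =
      if i.val % 2 = φ.val then arm k L (x i) ^ 2 + arm k L (y i) ^ 2 else 0 := by
    intro φ
    by_cases hφ : i.val % 2 = φ.val
    · rw [if_pos hφ, ← sum_ind_sq (L := L) (x i) (y i) h]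
      apply Finset.sum_congr rfl
      intro b _
      rw [Dif_zero, if_pos hφ]
    · rw [if_neg hφ]
      apply Finset.sum_eq_zero
      intro b _
      rw [Dif_zero, if_neg hφ]; ring
  rw [Finset.sum_congr rfl (fun φ _ => h1 φ), sum_phase]

theorem eventually_Q_lt (i : ℕ) (x y z w : Addr k L) (h1 : Agree x y i) (h2 : Agree z w i)
    (h : F i x y 0 < F i z w 0) : ∀ᶠ ε in 𝓝[>] (0 : ℝ), Q ε x y < Q ε z w := by
  have hc : ∀ᶠ ε in 𝓝 (0 : ℝ), F i x y ε < F i z w ε :=
    (continuous_F i x y).continuousAt.eventually_lt (continuous_F i z w).continuousAt h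
  filter_upwards [nhdsWithin_le_nhds hc, self_mem_nhdsWithin] with ε h3 h4
  rw [Q_eq ε i x y h1, Q_eq ε i z w h2]
  exact mul_lt_mul_of_pos_left h3 (pow_pos h4 _)

/-- the two parts in the parent comparison -/
noncomputable def PA (j : ℕ) (x p q : Addr k L) (ε : ℝ) : ℝ :=
  ∑ φ : Fin 2, ∑ b : Fin k, if j % 2 = φ.val then
    Dif j x p φ b ε * (Dif j x q φ b ε + Dif j p q φ b ε) else
    ε ^ 2 * (Dif (j + 1) x p φ b ε * (Dif (j - 1) x q φ b ε + Dif (j - 1) p q φ b ε))

theorem continuous_PA (j : ℕ) (x p q : Addr k L) : Continuous (PA j x p q) := by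
  unfold PA
  apply continuous_finsetSum
  intro φ _
  apply continuous_finsetSum
  intro b _
  split_ifs
  · exact (continuous_Dif _ _ _ _ _).mul ((continuous_Dif _ _ _ _ _).add (continuous_Dif _ _ _ _ _))
  · exact (continuous_pow 2).mul
      ((continuous_Dif _ _ _ _ _).mul ((continuous_Dif _ _ _ _ _).add (continuous_Dif _ _ _ _ _)))

theorem Q_sub (ε : ℝ) (j' j : ℕ) (hj : j' + 1 = j) (x p q : Addr k L) (h1 : Agree x p j)
    (h2 : Agree x q j') : Q ε x q - Q ε p q = ε ^ (2 * j ^ 2) * PA j x p q ε := by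
  unfold Q PA
  rw [← Finset.sum_sub_distrib, Finset.mul_sum]
  apply Finset.sum_congr rfl
  intro φ _
  rw [← Finset.sum_sub_distrib, Finset.mul_sum]
  apply Finset.sum_congr rfl
  intro b _
  have h3 : Agree p q j' := (h1.mono (by omega)).symm.trans h2
  have hfac : (X ε x φ b - X ε q φ b) ^ 2 - (X ε p φ b - X ε q φ b) ^ 2 =
      (X ε x φ b - X ε p φ b) * ((X ε x φ b - X ε q φ b) + (X ε p φ b - X ε q φ b)) := by ring
  rw [hfac]
  by_cases hφ : j % 2 = φ.val
  · rw [if_pos hφ]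
    have hlow : ∀ l : Fin L, l.val < j → l.val % 2 = φ.val → l.val < j' := by
      intro l hl hl2
      omega
    rw [shift ε j x p φ b (fun l hl _ => h1 l hl),
      shift ε j x q φ b (fun l hl hl2 => h2 l (hlow l hl hl2)),
      shift ε j p q φ b (fun l hl hl2 => h3 l (hlow l hl hl2))]
    ring
  · rw [if_neg hφ]
    have hlow : ∀ l : Fin L, l.val < j + 1 → l.val % 2 = φ.val → l.val < j := by
      intro l hl hl2
      have : l.val ≠ j := fun h => hφ (by rw [← h]; exact hl2)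
      omega
    have hj1 : j - 1 = j' := by omega
    rw [hj1, shift ε (j + 1) x p φ b (fun l hl hl2 => h1 l (hlow l hl hl2)),
      shift ε j' x q φ b (fun l hl _ => h2 l hl),
      shift ε j' p q φ b (fun l hl _ => h3 l hl)]
    have he : ε ^ ((j + 1) ^ 2) * ε ^ (j' ^ 2) = ε ^ (2 * j ^ 2) * ε ^ 2 := by
      rw [← pow_add, ← pow_add]
      congr 1
      subst hj
      ring
    calc ε ^ ((j + 1) ^ 2) * Dif (j + 1) x p φ b ε *
          (ε ^ (j' ^ 2) * Dif j' x q φ b ε + ε ^ (j' ^ 2) * Dif j' p q φ b ε)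
        = (ε ^ ((j + 1) ^ 2) * ε ^ (j' ^ 2)) *
          (Dif (j + 1) x p φ b ε * (Dif j' x q φ b ε + Dif j' p q φ b ε)) := by ring
      _ = _ := by rw [he]; ring

theorem PA_zero (j : Fin L) (x p q : Addr k L) (h1 : p j < x j) (h2 : q j ≠ x j) :
    0 < PA j.val x p q 0 := by
  have h3 : ∀ φ : Fin 2, (∑ b : Fin k, if j.val % 2 = φ.val then
      Dif j.val x p φ b 0 * (Dif j.val x q φ b 0 + Dif j.val p q φ b 0) else
      (0 : ℝ) ^ 2 * (Dif (j.val + 1) x p φ b 0 *
        (Dif (j.val - 1) x q φ b 0 + Dif (j.val - 1) p q φ b 0))) =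
      if j.val % 2 = φ.val then
        (arm k L (x j) ^ 2 - arm k L (p j) ^ 2 * (1 - 2 * ind (p j) (q j))) else 0 := by
    intro φ
    by_cases hφ : j.val % 2 = φ.val
    · rw [if_pos hφ]
      have h4 : ∀ b : Fin k, (if j.val % 2 = φ.val then
          Dif j.val x p φ b 0 * (Dif j.val x q φ b 0 + Dif j.val p q φ b 0) else
          (0 : ℝ) ^ 2 * (Dif (j.val + 1) x p φ b 0 *
            (Dif (j.val - 1) x q φ b 0 + Dif (j.val - 1) p q φ b 0))) =
          (if x j = b then arm k L b ^ 2 else 0) -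
          (if p j = b then arm k L b ^ 2 * (1 - 2 * ind (p j) (q j)) else 0) := by
        intro b
        rw [if_pos hφ, Dif_zero, Dif_zero, Dif_zero, if_pos hφ, if_pos hφ, if_pos hφ]
        by_cases hx : x j = b
        · have hp : ¬ p j = b := fun h => by rw [h, hx] at h1; exact lt_irrefl _ h1
          have hq : ¬ q j = b := fun h => h2 (h.trans hx.symm)
          rw [if_pos hx, if_neg hp]
          unfold ind
          rw [if_pos hx, if_neg hp, if_neg hq]
          ring
        · rw [if_neg hx]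
          by_cases hp : p j = b
          · rw [if_pos hp]
            unfold ind
            rw [if_neg hx, if_pos hp]
            by_cases hq : q j = b
            · rw [if_pos hq, if_pos (hp.trans hq.symm)]; ring
            · rw [if_neg hq, if_neg (fun h => hq (h.symm.trans hp))]; ring
          · rw [if_neg hp]
            unfold ind
            rw [if_neg hx, if_neg hp]
            ring
      rw [Finset.sum_congr rfl (fun b _ => h4 b), Finset.sum_sub_distrib]
      simp
    · rw [if_neg hφ]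
      apply Finset.sum_eq_zero
      intro b _
      rw [if_neg hφ]; ring
  unfold PA
  rw [Finset.sum_congr rfl (fun φ _ => h3 φ), sum_phase]
  have h5 := arm_lt (L := L) h1
  have h6 := arm_pos (L := L) (p j)
  unfold ind
  split_ifs
  · nlinarith [arm_pos (L := L) (x j)]
  · nlinarith [arm_pos (L := L) (x j)]

theorem eventually_parent (x p q : Addr k L) (j' j : Fin L) (hj : j'.val + 1 = j.val)
    (h1 : Agree x p j.val) (h2 : Agree x q j'.val) (h3 : p j < x j) (h4 : q j ≠ x j) :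
    ∀ᶠ ε in 𝓝[>] (0 : ℝ), Q ε p q < Q ε x q := by
  have hc : ∀ᶠ ε in 𝓝 (0 : ℝ), 0 < PA j.val x p q ε :=
    (continuous_const).continuousAt.eventually_lt (continuous_PA j.val x p q).continuousAt
      (PA_zero j x p q h3 h4)
  filter_upwards [nhdsWithin_le_nhds hc, self_mem_nhdsWithin] with ε h5 h6
  have h7 := Q_sub ε j'.val j.val hj x p q h1 h2
  have h8 : 0 < ε ^ (2 * j.val ^ 2) * PA j.val x p q ε := mul_pos (pow_pos h6 _) h5
  linarith

/-- The point of the torus with address `x`. -/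
noncomputable def pt (ε : ℝ) (x : Addr k L) : Torus (2 * k) :=
  WithLp.toLp 2 (fun i => ((X ε x (finProdFinEquiv.symm i).1 (finProdFinEquiv.symm i).2 : ℝ) :
    UnitAddCircle))

theorem X_nonneg {ε : ℝ} (h0 : 0 ≤ ε) (x : Addr k L) (φ : Fin 2) (b : Fin k) : 0 ≤ X ε x φ b := by
  unfold X
  apply Finset.sum_nonneg
  intro j _
  split_ifs
  · apply mul_nonneg (pow_nonneg h0 _)
    apply mul_nonneg (arm_pos b).le
    unfold ind; split_ifs <;> norm_num
  · exact le_rfl

theorem X_le {ε : ℝ} (h0 : 0 ≤ ε) (h1 : ε ≤ 1) (x : Addr k L) (φ : Fin 2) (b : Fin k) :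
    X ε x φ b ≤ 1 / 4 := by
  have h2 : X ε x φ b ≤ ∑ _j : Fin L, 1 / (4 * ((L : ℝ) + 1)) := by
    unfold X
    apply Finset.sum_le_sum
    intro j _
    have h3 : (0 : ℝ) ≤ 1 / (4 * ((L : ℝ) + 1)) := by positivity
    split_ifs
    · have h4 : ε ^ (j.val ^ 2) ≤ 1 := pow_le_one₀ h0 h1
      have h5 : arm k L b * ind (x j) b ≤ 1 / (4 * ((L : ℝ) + 1)) := by
        unfold ind
        split_ifs
        · rw [mul_one]; exact arm_le b
        · rw [mul_zero]; exact h3
      have h6 : 0 ≤ arm k L b * ind (x j) b := by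
        apply mul_nonneg (arm_pos b).le
        unfold ind; split_ifs <;> norm_num
      calc ε ^ (j.val ^ 2) * (arm k L b * ind (x j) b) ≤ 1 * (arm k L b * ind (x j) b) :=
            mul_le_mul_of_nonneg_right h4 h6
        _ ≤ _ := by rw [one_mul]; exact h5
    · exact h3
  refine h2.trans ?_
  rw [Finset.sum_const, Finset.card_univ, Fintype.card_fin, nsmul_eq_mul, mul_one_div,
    div_le_div_iff₀ (by positivity) (by norm_num)]
  linarith

theorem dist_pt {ε : ℝ} (h0 : 0 ≤ ε) (h1 : ε ≤ 1) (x y : Addr k L) :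
    dist (pt ε x) (pt ε y) = Real.sqrt (Q ε x y) := by
  rw [PiLp.dist_eq_of_L2]
  congr 1
  have h2 : ∀ i : Fin (2 * k), dist ((pt ε x).ofLp i) ((pt ε y).ofLp i) ^ 2 =
      (X ε x (finProdFinEquiv.symm i).1 (finProdFinEquiv.symm i).2 -
        X ε y (finProdFinEquiv.symm i).1 (finProdFinEquiv.symm i).2) ^ 2 := by
    intro i
    set a := X ε x (finProdFinEquiv.symm i).1 (finProdFinEquiv.symm i).2 with ha
    set b := X ε y (finProdFinEquiv.symm i).1 (finProdFinEquiv.symm i).2 with hb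
    have e1 : (pt ε x).ofLp i = ((a : ℝ) : UnitAddCircle) := rfl
    have e2 : (pt ε y).ofLp i = ((b : ℝ) : UnitAddCircle) := rfl
    rw [e1, e2, dist_eq_norm, ← AddCircle.coe_sub]
    have ha0 := X_nonneg h0 x (finProdFinEquiv.symm i).1 (finProdFinEquiv.symm i).2
    have hb0 := X_nonneg h0 y (finProdFinEquiv.symm i).1 (finProdFinEquiv.symm i).2
    have ha1 := X_le h0 h1 x (finProdFinEquiv.symm i).1 (finProdFinEquiv.symm i).2
    have hb1 := X_le h0 h1 y (finProdFinEquiv.symm i).1 (finProdFinEquiv.symm i).2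
    rw [← ha] at ha0 ha1
    rw [← hb] at hb0 hb1
    have h3 : ‖((a - b : ℝ) : UnitAddCircle)‖ = |a - b| := by
      rw [AddCircle.norm_coe_eq_abs_iff 1 one_ne_zero]
      rw [abs_one, abs_le]
      constructor <;> linarith
    rw [h3, sq_abs]
  rw [Finset.sum_congr rfl (fun i _ => h2 i)]
  unfold Q
  rw [← Fintype.sum_prod_type' (fun φ b => (X ε x φ b - X ε y φ b) ^ 2)]
  exact Equiv.sum_comp finProdFinEquiv.symm
    (fun c : Fin 2 × Fin k => (X ε x c.1 c.2 - X ε y c.1 c.2) ^ 2)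

theorem Q_nonneg (ε : ℝ) (x y : Addr k L) : 0 ≤ Q ε x y := by
  unfold Q
  exact Finset.sum_nonneg (fun _ _ => Finset.sum_nonneg (fun _ _ => sq_nonneg _))

theorem eventually_good : ∀ᶠ ε in 𝓝[>] (0 : ℝ), Good (pt (k := k) (L := L) ε) := by
  have e1 : ∀ᶠ ε in 𝓝[>] (0 : ℝ), ∀ (x y z w : Addr k L) (i : Fin L),
      Agree x y (i.val + 1) → Agree z w i.val → z i ≠ w i → Q ε x y < Q ε z w := by
    simp only [Filter.eventually_all]
    intro x y z w i h1 h2 h3
    apply eventually_Q_lt i.val x y z w (h1.mono (Nat.le_succ _)) h2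
    rw [F_zero_of_eq i x y (h1 i (Nat.lt_succ_self _)), F_zero_of_ne i z w h3]
    have := arm_pos (L := L) (z i)
    have := arm_pos (L := L) (w i)
    positivity
  have e2 : ∀ᶠ ε in 𝓝[>] (0 : ℝ), ∀ (x y z w : Addr k L) (i : Fin L),
      Agree x y i.val → Agree z w i.val → x i ≠ y i → z i ≠ w i → x i < z i → y i = w i →
      Q ε x y < Q ε z w := by
    simp only [Filter.eventually_all]
    intro x y z w i h1 h2 h3 h4 h5 h6
    apply eventually_Q_lt i.val x y z w h1 h2
    rw [F_zero_of_ne i x y h3, F_zero_of_ne i z w h4, h6]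
    have h7 := arm_lt (L := L) h5
    have h8 := arm_pos (L := L) (x i)
    nlinarith
  have e3 : ∀ᶠ ε in 𝓝[>] (0 : ℝ), ∀ (x p q : Addr k L) (j' j : Fin L), j'.val + 1 = j.val →
      Agree x p j.val → Agree x q j'.val → p j < x j → q j ≠ x j → Q ε p q < Q ε x q := by
    simp only [Filter.eventually_all]
    intro x p q j' j h1 h2 h3 h4 h5
    exact eventually_parent x p q j' j h1 h2 h3 h4 h5
  have e4 : ∀ᶠ ε in 𝓝[>] (0 : ℝ), ε ≤ 1 := by
    apply nhdsWithin_le_nhds
    exact Iic_mem_nhds (by norm_num : (0 : ℝ) < 1)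
  filter_upwards [e1, e2, e3, e4, self_mem_nhdsWithin] with ε h1 h2 h3 h4 h5
  have h0 : (0 : ℝ) ≤ ε := le_of_lt h5
  refine ⟨?_, ?_, ?_⟩
  · intro x y z w i a1 a2 a3
    rw [dist_pt h0 h4, dist_pt h0 h4]
    exact Real.sqrt_lt_sqrt (Q_nonneg _ _ _) (h1 x y z w i a1 a2 a3)
  · intro x y z w i a1 a2 a3 a4 a5 a6
    rw [dist_pt h0 h4, dist_pt h0 h4]
    exact Real.sqrt_lt_sqrt (Q_nonneg _ _ _) (h2 x y z w i a1 a2 a3 a4 a5 a6)
  · intro x p q j' j a1 a2 a3 _ a5 a6
    rw [dist_pt h0 h4, dist_pt h0 h4]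
    exact Real.sqrt_lt_sqrt (Q_nonneg _ _ _) (h3 x p q j' j a1 a2 a3 a5 a6)

end Pool.Agent.Helper64_NNTree
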