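import Pool.Agent.Helper64_NNTree.Det
import Pool.Agent.Helper64_NNTree.Count
import Pool.Agent.Helper64_NNTree.Geom

/-!
# The expected number of uncovered vertices of the configuration
-/

namespace Pool.Agent.Helper64_NNTree

open Finset

variable {k L n : ℕ}

/-- The real number `k ^ (L - j - 1)`, written as a product. -/
noncomputable def W (k L : ℕ) (j : ℕ) : ℝ := ∏ l : Fin L, (if l.val ≤ j then (1 : ℝ) else (k : ℝ))

theorem W_pos (hk : 0 < k) (j : ℕ) : 0 < W k L j := by
  unfold W
  apply Finset.prod_pos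
  intro l _
  split_ifs
  · exact one_pos
  · exact_mod_cast hk

/-- Addresses that agree with `x` before `j`, with `j`-th coordinate in `s` and next
coordinate `l` in `t l`. -/
def box (x : Addr k L) (j : ℕ) (s : Finset (Fin k)) (t : Fin L → Finset (Fin k)) :
    Finset (Addr k L) :=
  Fintype.piFinset (fun l : Fin L =>
    if l.val < j then {x l} else if l.val = j then s else if l.val = j + 1 then t l else univ)

theorem mem_box (x : Addr k L) (j : ℕ) (s : Finset (Fin k)) (t : Fin L → Finset (Fin k))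
    (z : Addr k L) : z ∈ box x j s t ↔ (∀ l : Fin L, l.val < j → z l = x l) ∧
      (∀ l : Fin L, l.val = j → z l ∈ s) ∧ (∀ l : Fin L, l.val = j + 1 → z l ∈ t l) := by
  unfold box
  rw [Fintype.mem_piFinset]
  constructor
  · intro h
    refine ⟨?_, ?_, ?_⟩
    · intro l hl
      have := h l
      rw [if_pos hl] at this
      exact Finset.mem_singleton.mp this
    · intro l hl
      have := h l
      rw [if_neg (by omega), if_pos hl] at this
      exact this
    · intro l hl
      have := h l
      rw [if_neg (by omega), if_neg (by omega), if_pos hl] at this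
      exact this
  · rintro ⟨h1, h2, h3⟩ l
    split_ifs with c1 c2 c3
    · exact Finset.mem_singleton.mpr (h1 l c1)
    · exact h2 l c2
    · exact h3 l c3
    · exact Finset.mem_univ _

theorem card_box (hk : 0 < k) (x : Addr k L) (j : Fin L) (s : Finset (Fin k))
    (t : Fin L → Finset (Fin k)) :
    ((box x j.val s t).card : ℝ) = (s.card : ℝ) *
      (∏ l : Fin L, (if l.val = j.val + 1 then ((t l).card : ℝ) / k else 1)) * W k L j.val := by
  have hk' : (k : ℝ) ≠ 0 := by exact_mod_cast hk.ne'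
  unfold box W
  rw [Fintype.card_piFinset, Nat.cast_prod]
  have h1 : (s.card : ℝ) = ∏ l : Fin L, (if l = j then (s.card : ℝ) else 1) := by
    rw [Finset.prod_ite_eq' Finset.univ j]
    simp
  rw [h1, ← Finset.prod_mul_distrib, ← Finset.prod_mul_distrib]
  apply Finset.prod_congr rfl
  intro l _
  by_cases c1 : l.val < j.val
  · have c2 : l ≠ j := by rintro rfl; omega
    rw [if_pos c1, if_neg c2, if_neg (by omega), if_pos (by omega)]
    simp
  · by_cases c2 : l = j
    · subst c2
      rw [if_neg (by omega), if_pos rfl, if_pos rfl, if_neg (by omega), if_pos le_rfl]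
      simp
    · have c3 : l.val ≠ j.val := fun h => c2 (Fin.ext h)
      by_cases c4 : l.val = j.val + 1
      · rw [if_neg c1, if_neg c3, if_pos c4, if_neg c2, if_pos c4, if_neg (by omega)]
        field_simp
      · rw [if_neg c1, if_neg c3, if_neg c4, if_neg c2, if_neg c4, if_neg (by omega)]
        simp

/-- Extension of a finite sequence of addresses by `x`. -/
def ext (x : Addr k L) (q : Fin L → Addr k L) (j : ℕ) : Addr k L :=
  if h : j < L then q ⟨j, h⟩ else x

theorem ext_of_lt (x : Addr k L) (q : Fin L → Addr k L) {j : ℕ} (h : j < L) :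
    ext x q j = q ⟨j, h⟩ := dif_pos h

open Classical in
/-- The allowed positions of the `j`-th member of a chain. -/
noncomputable def GS (x : Addr k L) (j : Fin L) : Finset (Addr k L) :=
  univ.filter (fun z => Agree z x j.val ∧ z j < x j ∧
    ∀ h : j.val + 1 < L, z ⟨j.val + 1, h⟩ ≠ x ⟨j.val + 1, h⟩)

theorem mem_GS (x : Addr k L) (j : Fin L) (z : Addr k L) : z ∈ GS x j ↔
    Agree z x j.val ∧ z j < x j ∧ ∀ h : j.val + 1 < L, z ⟨j.val + 1, h⟩ ≠ x ⟨j.val + 1, h⟩ := by
  unfold GS
  simp

theorem chain_ext (x : Addr k L) (q : Fin L → Addr k L) (hq : ∀ j, q j ∈ GS x j) :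
    Chain x (ext x q) := by
  refine ⟨?_, ?_, ?_, ?_⟩
  · unfold ext
    rw [dif_neg (lt_irrefl _)]
  · intro j hj
    rw [ext_of_lt x q hj]
    exact ((mem_GS _ _ _).mp (hq ⟨j, hj⟩)).1
  · intro j hj
    rw [ext_of_lt x q hj]
    exact ((mem_GS _ _ _).mp (hq ⟨j, hj⟩)).2.1
  · intro j hj
    rw [ext_of_lt x q (by omega : j < L)]
    exact ((mem_GS _ _ _).mp (hq ⟨j, by omega⟩)).2.2 hj

open Classical in
/-- The nested sets. -/
noncomputable def DS (x : Addr k L) (p : ℕ → Addr k L) : ℕ → Finset (Addr k L)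
  | 0 => univ
  | (j + 1) => univ.filter (fun z => ∃ h : j < L, InD x j h (p j) z)

theorem mem_DS_succ (x : Addr k L) (p : ℕ → Addr k L) (j : ℕ) (z : Addr k L) :
    z ∈ DS x p (j + 1) ↔ ∃ h : j < L, InD x j h (p j) z := by
  unfold DS
  simp

open Classical in
/-- The orders for which the chain `q` is realised. -/
noncomputable def Ev (n : ℕ) (x : Addr k L) (q : Fin L → Addr k L) : Finset (Addr k L ≃ Fin n) :=
  univ.filter (fun τ => ∀ j, j < L + 1 → ∀ z ∈ DS x (ext x q) j, τ (ext x q j) ≤ τ z)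

theorem mem_Ev (x : Addr k L) (q : Fin L → Addr k L) (τ : Addr k L ≃ Fin n) :
    τ ∈ Ev n x q ↔ ∀ j, j < L + 1 → ∀ z ∈ DS x (ext x q) j, τ (ext x q j) ≤ τ z := by
  unfold Ev
  simp

theorem uncovered_of_mem_Ev {M : Type*} [PseudoMetricSpace M] {pts : Addr k L → M}
    (hg : Good pts) (x : Addr k L) (q : Fin L → Addr k L) (hq : ∀ j, q j ∈ GS x j)
    (τ : Addr k L ≃ Fin n) (hτ : τ ∈ Ev n x q) :
    τ x ∈ uncovered (fun i => pts (τ.symm i)) := by
  rw [mem_Ev] at hτ
  apply mem_uncovered_of_chain hg τ (chain_ext x q hq)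
  · intro z
    exact hτ 0 (by omega) z (by unfold DS; exact Finset.mem_univ _)
  · intro j hj z hz
    exact hτ (j + 1) (by omega) z ((mem_DS_succ _ _ _ _).mpr ⟨hj, hz⟩)

theorem min_of_mem_Ev (x : Addr k L) (q : Fin L → Addr k L) (hq : ∀ j, q j ∈ GS x j)
    (τ : Addr k L ≃ Fin n) (hτ : τ ∈ Ev n x q) (j : Fin L) (z : Addr k L)
    (hz : Agree z x j.val) : τ (q j) ≤ τ z := by
  rw [mem_Ev] at hτ
  have hc := chain_ext x q hq
  obtain ⟨j, hj⟩ := j
  have h1 := hτ j (by omega)
  rw [ext_of_lt x q hj] at h1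
  apply h1
  cases j with
  | zero => unfold DS; exact Finset.mem_univ _
  | succ j =>
    rw [mem_DS_succ]
    have hj' : j < L := by omega
    refine ⟨hj', hz.mono (Nat.le_succ j), ?_, Or.inr (hz ⟨j, hj'⟩ (Nat.lt_succ_self j))⟩
    intro hcon
    have h2 := hc.lt j hj'
    rw [← hcon, hz ⟨j, hj'⟩ (Nat.lt_succ_self j)] at h2
    exact lt_irrefl _ h2

theorem Ev_unique (x : Addr k L) (q q' : Fin L → Addr k L) (hq : ∀ j, q j ∈ GS x j)
    (hq' : ∀ j, q' j ∈ GS x j) (τ : Addr k L ≃ Fin n) (hτ : τ ∈ Ev n x q) (hτ' : τ ∈ Ev n x q') :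
    q = q' := by
  funext j
  apply τ.injective
  apply le_antisymm
  · exact min_of_mem_Ev x q hq τ hτ j _ ((mem_GS _ _ _).mp (hq' j)).1
  · exact min_of_mem_Ev x q' hq' τ hτ' j _ ((mem_GS _ _ _).mp (hq j)).1

theorem card_Ev (hn : Fintype.card (Addr k L) = n) (x : Addr k L) (q : Fin L → Addr k L)
    (hq : ∀ j, q j ∈ GS x j) :
    (Ev n x q).card * ∏ j ∈ Finset.range (L + 1), (DS x (ext x q) j).card = n.factorial := by
  classical
  have hc := chain_ext x q hq
  have hp : ∀ j, j < L + 1 → ext x q j ∈ DS x (ext x q) j := by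
    intro j hj
    cases j with
    | zero => unfold DS; exact Finset.mem_univ _
    | succ j =>
      rw [mem_DS_succ]
      have hj' : j < L := by omega
      refine ⟨hj', (hc.agree' (by omega : j + 1 ≤ L)).mono (Nat.le_succ j), ?_, Or.inr ?_⟩
      · intro hcon
        have h1 := hc.lt j hj'
        have h2 := hc.agree' (by omega : j + 1 ≤ L) ⟨j, hj'⟩ (Nat.lt_succ_self j)
        rw [hcon] at h2
        rw [h2] at h1
        exact lt_irrefl _ h1
      · exact hc.agree' (by omega : j + 1 ≤ L) ⟨j, hj'⟩ (Nat.lt_succ_self j)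
  have hsub : ∀ i j, i < j → j < L + 1 →
      DS x (ext x q) j ⊆ (DS x (ext x q) i).erase (ext x q i) := by
    intro i j hij hj z hz
    obtain ⟨j', rfl⟩ : ∃ j', j = j' + 1 := ⟨j - 1, by omega⟩
    rw [mem_DS_succ] at hz
    obtain ⟨hj', ha, hne, hor⟩ := hz
    rw [Finset.mem_erase]
    have hne' : z ≠ ext x q i := by
      rcases Nat.eq_or_lt_of_le (Nat.lt_succ_iff.mp hij) with h1 | h1
      · subst h1; exact hne
      · intro hcon
        have hi : i < L := by omega
        have h2 := hc.lt i hi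
        rw [← hcon, ha ⟨i, hi⟩ h1] at h2
        exact lt_irrefl _ h2
    refine ⟨hne', ?_⟩
    cases i with
    | zero => unfold DS; exact Finset.mem_univ _
    | succ i =>
      rw [mem_DS_succ]
      have hi : i < L := by omega
      have hij' : i < j' := by omega
      refine ⟨hi, ha.mono hij'.le, ?_, Or.inr (ha ⟨i, hi⟩ hij')⟩
      intro hcon
      have h2 := hc.lt i hi
      rw [← hcon, ha ⟨i, hi⟩ hij'] at h2
      exact lt_irrefl _ h2
  have := nested_count hn (DS x (ext x q)) (ext x q) (L + 1) hp hsub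
  unfold Ev
  convert this

theorem card_DS_le (hk : 0 < k) (x : Addr k L) (p : ℕ → Addr k L) (j : Fin L) :
    ((DS x p (j.val + 1)).card : ℝ) ≤ (((p j.val j).val : ℝ) + 2) * W k L j.val := by
  classical
  have hsub : DS x p (j.val + 1) ⊆
      box x j.val (insert (x j) (Finset.Iic (p j.val j))) (fun _ => univ) := by
    intro z hz
    rw [mem_DS_succ] at hz
    obtain ⟨hj, ha, _, hor⟩ := hz
    rw [mem_box]
    refine ⟨fun l hl => ha l hl, ?_, fun l _ => Finset.mem_univ _⟩
    intro l hl
    have hlj : l = j := Fin.ext hl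
    subst hlj
    rw [Finset.mem_insert, Finset.mem_Iic]
    rcases hor with h | h
    · exact Or.inr h
    · exact Or.inl h
  have h1 : ((DS x p (j.val + 1)).card : ℝ) ≤
      ((box x j.val (insert (x j) (Finset.Iic (p j.val j))) (fun _ => univ)).card : ℝ) := by
    exact_mod_cast Finset.card_le_card hsub
  refine h1.trans ?_
  rw [card_box hk]
  have h2 : (∏ l : Fin L, (if l.val = j.val + 1 then
      (((Finset.univ : Finset (Fin k)).card : ℝ)) / k else 1)) = 1 := by
    apply Finset.prod_eq_one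
    intro l _
    split_ifs
    · rw [Finset.card_univ, Fintype.card_fin]
      have : (k : ℝ) ≠ 0 := by exact_mod_cast hk.ne'
      field_simp
    · rfl
  rw [h2, mul_one]
  have h3 : ((insert (x j) (Finset.Iic (p j.val j))).card : ℝ) ≤ ((p j.val j).val : ℝ) + 2 := by
    have h4 := Finset.card_insert_le (x j) (Finset.Iic (p j.val j))
    rw [Fin.card_Iic] at h4
    have : (insert (x j) (Finset.Iic (p j.val j))).card ≤ (p j.val j).val + 2 := by omega
    exact_mod_cast this
  exact mul_le_mul_of_nonneg_right h3 (W_pos hk _).le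

/-- The weight of a member of a chain. -/
noncomputable def wt (j : Fin L) (z : Addr k L) : ℝ := 1 / ((((z j).val : ℝ) + 2) * W k L j.val)

/-- The contribution of one coordinate. -/
noncomputable def gg (k : ℕ) (a : Fin k) : ℝ :=
  ∑ c ∈ Finset.Iio a, ((k : ℝ) - 1) / k / ((c.val : ℝ) + 2)

theorem card_slice_ge (hk : 0 < k) (x : Addr k L) (j : Fin L) (c : Fin k) (hc : c < x j) :
    ((k : ℝ) - 1) / k * W k L j.val ≤ (((GS x j).filter (fun z => z j = c)).card : ℝ) := by
  classical
  have hk' : (0 : ℝ) < k := by exact_mod_cast hk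
  have hsub : box x j.val {c} (fun l => Finset.univ.erase (x l)) ⊆
      (GS x j).filter (fun z => z j = c) := by
    intro z hz
    rw [mem_box] at hz
    obtain ⟨h1, h2, h3⟩ := hz
    have hzj : z j = c := Finset.mem_singleton.mp (h2 j rfl)
    rw [Finset.mem_filter, mem_GS]
    refine ⟨⟨fun l hl => h1 l hl, by rw [hzj]; exact hc, ?_⟩, hzj⟩
    intro h
    have := h3 ⟨j.val + 1, h⟩ rfl
    exact Finset.ne_of_mem_erase this
  have h1 : ((box x j.val {c} (fun l => Finset.univ.erase (x l))).card : ℝ) ≤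
      (((GS x j).filter (fun z => z j = c)).card : ℝ) := by
    exact_mod_cast Finset.card_le_card hsub
  refine le_trans ?_ h1
  rw [card_box hk, Finset.card_singleton, Nat.cast_one, one_mul]
  apply mul_le_mul_of_nonneg_right _ (W_pos hk _).le
  have h2 : ∀ l : Fin L, (if l.val = j.val + 1 then
      (((Finset.univ.erase (x l) : Finset (Fin k)).card : ℝ)) / k else 1) =
      (if l.val = j.val + 1 then ((k : ℝ) - 1) / k else 1) := by
    intro l
    rw [Finset.card_erase_of_mem (Finset.mem_univ _), Finset.card_univ, Fintype.card_fin,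
      Nat.cast_sub hk, Nat.cast_one]
  rw [Finset.prod_congr rfl (fun l _ => h2 l)]
  have hle : ((k : ℝ) - 1) / k ≤ 1 := by
    rw [div_le_one hk']; linarith
  by_cases h : j.val + 1 < L
  · have h3 : ∀ l : Fin L, (if l.val = j.val + 1 then ((k : ℝ) - 1) / k else 1) =
        (if l = ⟨j.val + 1, h⟩ then ((k : ℝ) - 1) / k else 1) := by
      intro l
      congr 1
      rw [Fin.ext_iff]
    rw [Finset.prod_congr rfl (fun l _ => h3 l), Finset.prod_ite_eq' Finset.univ]
    simp
  · rw [Finset.prod_eq_one]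
    · exact hle
    · intro l _
      rw [if_neg]
      intro hl
      exact h (hl ▸ l.isLt)

theorem sum_wt_ge (hk : 0 < k) (x : Addr k L) (j : Fin L) :
    gg k (x j) ≤ ∑ z ∈ GS x j, wt j z := by
  classical
  have hmaps : ∀ z ∈ GS x j, z j ∈ Finset.Iio (x j) := by
    intro z hz
    rw [Finset.mem_Iio]
    exact ((mem_GS _ _ _).mp hz).2.1
  rw [← Finset.sum_fiberwise_of_maps_to hmaps]
  unfold gg
  apply Finset.sum_le_sum
  intro c hc
  have h1 : ∑ z ∈ (GS x j).filter (fun z => z j = c), wt j z =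
      (((GS x j).filter (fun z => z j = c)).card : ℝ) * (1 / (((c.val : ℝ) + 2) * W k L j.val)) := by
    rw [← nsmul_eq_mul, ← Finset.sum_const]
    apply Finset.sum_congr rfl
    intro z hz
    unfold wt
    rw [(Finset.mem_filter.mp hz).2]
  rw [h1]
  have hW := W_pos (L := L) hk j.val
  have h2 := card_slice_ge hk x j c (Finset.mem_Iio.mp hc)
  have h3 : ((k : ℝ) - 1) / k / ((c.val : ℝ) + 2) =
      (((k : ℝ) - 1) / k * W k L j.val) * (1 / (((c.val : ℝ) + 2) * W k L j.val)) := by
    field_simp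
  rw [h3]
  apply mul_le_mul_of_nonneg_right h2
  positivity

theorem card_Ev_ge (hk : 0 < k) (hn : Fintype.card (Addr k L) = n) (x : Addr k L)
    (q : Fin L → Addr k L) (hq : ∀ j, q j ∈ GS x j) :
    (n.factorial : ℝ) / n * ∏ j : Fin L, wt j (q j) ≤ ((Ev n x q).card : ℝ) := by
  classical
  have hnpos : 0 < n := by
    rw [← hn]
    have : Nonempty (Addr k L) := ⟨x⟩
    exact Fintype.card_pos
  have h1 := card_Ev hn x q hq
  have h2 : ((Ev n x q).card : ℝ) * ∏ j ∈ Finset.range (L + 1), ((DS x (ext x q) j).card : ℝ) =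
      (n.factorial : ℝ) := by
    exact_mod_cast h1
  rw [Finset.prod_range_succ'] at h2
  have h3 : ((DS x (ext x q) 0).card : ℝ) = n := by
    unfold DS
    rw [Finset.card_univ, hn]
  rw [h3, Finset.prod_range] at h2
  have h4 : ∏ j : Fin L, ((DS x (ext x q) (j.val + 1)).card : ℝ) ≤ ∏ j : Fin L, (wt j (q j))⁻¹ := by
    apply Finset.prod_le_prod
    · intro j _; exact Nat.cast_nonneg _
    · intro j _
      have := card_DS_le hk x (ext x q) j
      rw [ext_of_lt x q j.isLt] at this
      unfold wt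
      rw [one_div, inv_inv]
      exact this
  rw [Finset.prod_inv_distrib] at h4
  have hwpos : 0 < ∏ j : Fin L, wt j (q j) := by
    apply Finset.prod_pos
    intro j _
    unfold wt
    have := W_pos (L := L) hk j.val
    positivity
  have hn' : (0 : ℝ) < n := by exact_mod_cast hnpos
  have h5 : (n.factorial : ℝ) ≤ ((Ev n x q).card : ℝ) * ((∏ j : Fin L, wt j (q j))⁻¹ * n) := by
    rw [← h2]
    apply mul_le_mul_of_nonneg_left _ (Nat.cast_nonneg _)
    exact mul_le_mul_of_nonneg_right h4 hn'.le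
  rw [div_mul_eq_mul_div, div_le_iff₀ hn']
  calc (n.factorial : ℝ) * ∏ j : Fin L, wt j (q j)
      ≤ (((Ev n x q).card : ℝ) * ((∏ j : Fin L, wt j (q j))⁻¹ * n)) * ∏ j : Fin L, wt j (q j) :=
        mul_le_mul_of_nonneg_right h5 hwpos.le
    _ = ((Ev n x q).card : ℝ) * n := by field_simp

theorem sum_uncovered_ge (hk : 0 < k) (hn : Fintype.card (Addr k L) = n)
    {M : Type*} [PseudoMetricSpace M] {pts : Addr k L → M} (hg : Good pts) :
    (n.factorial : ℝ) / n * (∑ a : Fin k, gg k a) ^ L ≤
      ∑ τ : Addr k L ≃ Fin n, ((uncovered (fun i => pts (τ.symm i))).ncard : ℝ) := by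
  classical
  have hgg : ∀ a : Fin k, 0 ≤ gg k a := by
    intro a
    unfold gg
    apply Finset.sum_nonneg
    intro c _
    have hk' : (1 : ℝ) ≤ k := by exact_mod_cast hk
    have : (0 : ℝ) ≤ (k : ℝ) - 1 := by linarith
    positivity
  -- step 1: fixed order
  have step1 : ∀ τ : Addr k L ≃ Fin n,
      (∑ x : Addr k L, ∑ q ∈ Fintype.piFinset (fun j : Fin L => GS x j),
        (if τ ∈ Ev n x q then (1 : ℝ) else 0)) ≤
        ((uncovered (fun i => pts (τ.symm i))).ncard : ℝ) := by
    intro τ
    have hcard : ((uncovered (fun i => pts (τ.symm i))).ncard : ℝ) =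
        ∑ x : Addr k L, (if τ x ∈ uncovered (fun i => pts (τ.symm i)) then (1 : ℝ) else 0) := by
      rw [Equiv.sum_comp τ (fun i => if i ∈ uncovered (fun i => pts (τ.symm i)) then (1 : ℝ) else 0),
        Finset.sum_boole, Set.ncard_eq_toFinset_card']
      congr 2
      ext i
      simp
    rw [hcard]
    apply Finset.sum_le_sum
    intro x _
    rw [Finset.sum_boole]
    by_cases hne : ((Fintype.piFinset (fun j : Fin L => GS x j)).filter
        (fun q => τ ∈ Ev n x q)).Nonempty
    · obtain ⟨q, hq⟩ := hne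
      rw [Finset.mem_filter, Fintype.mem_piFinset] at hq
      rw [if_pos (uncovered_of_mem_Ev hg x q hq.1 τ hq.2)]
      have : ((Fintype.piFinset (fun j : Fin L => GS x j)).filter
          (fun q => τ ∈ Ev n x q)).card ≤ 1 := by
        rw [Finset.card_le_one]
        intro a ha b hb
        rw [Finset.mem_filter, Fintype.mem_piFinset] at ha hb
        exact Ev_unique x a b ha.1 hb.1 τ ha.2 hb.2
      exact_mod_cast this
    · rw [Finset.not_nonempty_iff_eq_empty] at hne
      rw [hne]
      simp only [Finset.card_empty, Nat.cast_zero]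
      split_ifs <;> norm_num
  -- step 2: exchange the sums
  have step2 : (∑ x : Addr k L, ∑ q ∈ Fintype.piFinset (fun j : Fin L => GS x j),
      ((Ev n x q).card : ℝ)) ≤
      ∑ τ : Addr k L ≃ Fin n, ((uncovered (fun i => pts (τ.symm i))).ncard : ℝ) := by
    have h1 : ∀ (x : Addr k L) (q : Fin L → Addr k L), ((Ev n x q).card : ℝ) =
        ∑ τ : Addr k L ≃ Fin n, (if τ ∈ Ev n x q then (1 : ℝ) else 0) := by
      intro x q
      rw [Finset.sum_boole]
      congr 2
      ext τ
      simp
    have h2 : (∑ x : Addr k L, ∑ q ∈ Fintype.piFinset (fun j : Fin L => GS x j),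
        ((Ev n x q).card : ℝ)) = ∑ τ : Addr k L ≃ Fin n, ∑ x : Addr k L,
          ∑ q ∈ Fintype.piFinset (fun j : Fin L => GS x j),
            (if τ ∈ Ev n x q then (1 : ℝ) else 0) := by
      rw [Finset.sum_comm]
      apply Finset.sum_congr rfl
      intro x _
      rw [Finset.sum_comm]
      apply Finset.sum_congr rfl
      intro q _
      exact h1 x q
    rw [h2]
    exact Finset.sum_le_sum (fun τ _ => step1 τ)
  refine le_trans ?_ step2
  -- step 3: lower bound
  have step3 : ∀ x : Addr k L, (n.factorial : ℝ) / n * ∏ j : Fin L, gg k (x j) ≤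
      ∑ q ∈ Fintype.piFinset (fun j : Fin L => GS x j), ((Ev n x q).card : ℝ) := by
    intro x
    have h1 : ∏ j : Fin L, gg k (x j) ≤ ∏ j : Fin L, ∑ z ∈ GS x j, wt j z :=
      Finset.prod_le_prod (fun j _ => hgg _) (fun j _ => sum_wt_ge hk x j)
    rw [Finset.prod_univ_sum] at h1
    have h0 : (0 : ℝ) ≤ (n.factorial : ℝ) / n := by positivity
    refine (mul_le_mul_of_nonneg_left h1 h0).trans ?_
    rw [Finset.mul_sum]
    apply Finset.sum_le_sum
    intro q hq
    rw [Fintype.mem_piFinset] at hq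
    exact card_Ev_ge hk hn x q hq
  have h4 : (∑ a : Fin k, gg k a) ^ L = ∑ x : Addr k L, ∏ j : Fin L, gg k (x j) := by
    have := Finset.prod_univ_sum (fun _ : Fin L => (Finset.univ : Finset (Fin k)))
      (fun _ a => gg k a)
    rw [Fintype.piFinset_univ] at this
    rw [← this, Finset.prod_const, Finset.card_univ, Fintype.card_fin]
  rw [h4, Finset.mul_sum]
  exact Finset.sum_le_sum (fun x _ => step3 x)

end Pool.Agent.Helper64_NNTree
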